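import Pool.Agent.W2helper61.Mes.Pred

/-!
# Almost surely, languages in `NP ∩ E` are predicted infinitely often
-/

namespace Pool.Agent.W2helper61.Mes

open MeasureTheory Filter Pool.Agent.NPC Pool.Agent.H628R3.RO
open scoped ENNReal Topology

theorem poly_le_pow (P : Polynomial ℕ) : ∃ a : ℕ, ∀ n : ℕ, P.eval n ≤ (n + 2) ^ a := by
  induction P using Polynomial.induction_on' with
  | add p q hp hq =>
    obtain ⟨a, ha⟩ := hp
    obtain ⟨b, hb⟩ := hq
    refine ⟨a + b + 1, fun n => ?_⟩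
    rw [Polynomial.eval_add]
    have h1 := ha n
    have h2 := hb n
    have h3 : (n + 2) ^ a ≤ (n + 2) ^ (a + b) := Nat.pow_le_pow_right (by omega) (by omega)
    have h4 : (n + 2) ^ b ≤ (n + 2) ^ (a + b) := Nat.pow_le_pow_right (by omega) (by omega)
    have h5 : (n + 2) ^ (a + b + 1) = (n + 2) ^ (a + b) * (n + 2) := pow_succ _ _
    have h6 : (n + 2) ^ (a + b) * 2 ≤ (n + 2) ^ (a + b) * (n + 2) :=
      Nat.mul_le_mul_left _ (by omega)
    omega
  | monomial k c =>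
    refine ⟨c + k, fun n => ?_⟩
    rw [Polynomial.eval_monomial, pow_add]
    refine Nat.mul_le_mul ?_ (Nat.pow_le_pow_left (by omega) _)
    calc c ≤ 2 ^ c := Nat.lt_two_pow_self.le
      _ ≤ (n + 2) ^ c := Nat.pow_le_pow_left (by omega) _

theorem two_pow_mul_le {a b k : ℕ} (h : a + k ≤ b) :
    (2 : ℝ≥0∞) ^ a * (2⁻¹ : ℝ≥0∞) ^ b ≤ (2⁻¹ : ℝ≥0∞) ^ k := by
  obtain ⟨j, rfl⟩ : ∃ j, b = a + (k + j) := ⟨b - a - k, by omega⟩
  rw [pow_add, ← mul_assoc, ← mul_pow, ENNReal.mul_inv_cancel (by norm_num) (by norm_num),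
    one_pow, one_mul]
  exact pow_le_pow_right_of_le_one' (by simp) (by omega)

theorem er_le (M : Alg) (c : ℕ) :
    ∀ᶠ m in atTop, (2 : ℝ≥0∞) ^ m * er M c m ≤ (2⁻¹ : ℝ≥0∞) ^ (m + 1) := by
  obtain ⟨a, ha⟩ := poly_le_pow M.p
  filter_upwards [eventually_ge_atTop (4 * (8 * (a * (c + 3) + 3)) + 7)] with m hm
  have h1 : M.p.eval (2 * m + 1 + 2 ^ (c * (m + 1))) ≤ 2 ^ (a * (c + 3) * (m + 1)) := by
    refine (ha _).trans ?_
    have h2 : 2 * m + 1 + 2 ^ (c * (m + 1)) + 2 ≤ 2 ^ ((c + 3) * (m + 1)) := by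
      have h3 : 2 * m + 3 ≤ 2 ^ (2 * (m + 1)) := by
        have : 2 * m + 3 ≤ 4 * (m + 1) := by omega
        have h4 : m + 1 < 2 ^ (m + 1) := Nat.lt_two_pow_self
        have h5 : 2 ^ (2 * (m + 1)) = 2 ^ (m + 1) * 2 ^ (m + 1) := by rw [two_mul, pow_add]
        have h6 : 4 ≤ 2 ^ (m + 1) := by
          calc 4 = 2 ^ 2 := by norm_num
            _ ≤ 2 ^ (m + 1) := Nat.pow_le_pow_right (by norm_num) (by omega)
        rw [h5]
        nlinarith
      have h4 : 2 ^ (2 * (m + 1)) ≤ 2 ^ ((c + 2) * (m + 1)) :=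
        Nat.pow_le_pow_right (by norm_num) (Nat.mul_le_mul_right _ (by omega))
      have h5 : 2 ^ (c * (m + 1)) ≤ 2 ^ ((c + 2) * (m + 1)) :=
        Nat.pow_le_pow_right (by norm_num) (Nat.mul_le_mul_right _ (by omega))
      have h6 : 2 * 2 ^ ((c + 2) * (m + 1)) ≤ 2 ^ ((c + 3) * (m + 1)) := by
        rw [← pow_succ']
        refine Nat.pow_le_pow_right (by norm_num) ?_
        have : (c + 3) * (m + 1) = (c + 2) * (m + 1) + (m + 1) := by ring
        omega
      omega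
    calc (2 * m + 1 + 2 ^ (c * (m + 1)) + 2) ^ a ≤ (2 ^ ((c + 3) * (m + 1))) ^ a :=
          Nat.pow_le_pow_left h2 _
      _ = 2 ^ (a * (c + 3) * (m + 1)) := by rw [← pow_mul]; congr 1; ring
  have h7 : m + a * (c + 3) * (m + 1) + (m + 1) ≤ lm m := by
    have h8 : m + 1 ≤ 8 * (m / 4) := by omega
    have h9 : 8 * (a * (c + 3) + 3) ≤ m / 4 := by omega
    have h10 : lm m = (m / 4) * (m / 4) := by unfold lm; ring
    have h11 : 8 * (a * (c + 3) + 3) * (m / 4) ≤ (m / 4) * (m / 4) := Nat.mul_le_mul_right _ h9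
    have h12 : (a * (c + 3) + 3) * (m + 1) ≤ (a * (c + 3) + 3) * (8 * (m / 4)) :=
      Nat.mul_le_mul_left _ h8
    have h13 : (a * (c + 3) + 3) * (8 * (m / 4)) = 8 * (a * (c + 3) + 3) * (m / 4) := by ring
    have h14 : m + a * (c + 3) * (m + 1) + (m + 1) ≤ (a * (c + 3) + 3) * (m + 1) := by
      have : (a * (c + 3) + 3) * (m + 1) = a * (c + 3) * (m + 1) + 3 * (m + 1) := by ring
      omega
    omega
  have h15 : er M c m ≤ (2 : ℝ≥0∞) ^ (a * (c + 3) * (m + 1)) * (2⁻¹ : ℝ≥0∞) ^ (lm m) := by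
    unfold er
    refine mul_le_mul_left ?_ _
    exact_mod_cast h1
  calc (2 : ℝ≥0∞) ^ m * er M c m
      ≤ (2 : ℝ≥0∞) ^ m * ((2 : ℝ≥0∞) ^ (a * (c + 3) * (m + 1)) * (2⁻¹ : ℝ≥0∞) ^ (lm m)) := by
        gcongr
    _ = (2 : ℝ≥0∞) ^ (m + a * (c + 3) * (m + 1)) * (2⁻¹ : ℝ≥0∞) ^ (lm m) := by
        rw [← mul_assoc, ← pow_add]
    _ ≤ (2⁻¹ : ℝ≥0∞) ^ (m + 1) := two_pow_mul_le h7

theorem half_pow_tendsto : Tendsto (fun m : ℕ => (2⁻¹ : ℝ≥0∞) ^ (m + 1)) atTop (𝓝 0) :=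
  (ENNReal.tendsto_pow_atTop_nhds_zero_of_lt_one (by norm_num)).comp (tendsto_add_atTop_nat 1)

theorem ae_good (B : List Bool → Bool) (V : Alg) (p : Polynomial ℕ) (M : Alg) (c : ℕ) :
    ∀ᵐ ω ∂randomOracle, ω ∈ Ev B V p M c → ∃ᶠ m in atTop, Good B V p m ω := by
  let Z : ℕ → Set Oracle := fun n => {ω | ω ∈ Ev B V p M c ∧ ∀ m ≥ n, ¬ Good B V p m ω}
  have hZ : ∀ n, randomOracle (Z n) = 0 := by
    intro n
    by_contra hne
    have hpos : 0 < randomOracle (Z n) := pos_iff_ne_zero.2 hne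
    have hq : 0 < randomOracle (Z n) / 4 := ENNReal.div_pos hne (by norm_num)
    obtain ⟨qv, hqv⟩ := acc_local V p
    obtain ⟨qm, hqm⟩ := out_congr' M
    have hloc : ∀ x, ∃ N, ∀ A A' : Oracle, (∀ v : List Bool, v.length ≤ N → A v = A' v) →
        ((Acc V p A x ↔ M.out A (pd c x) = some [true]) ↔
          (Acc V p A' x ↔ M.out A' (pd c x) = some [true])) := by
      intro x
      refine ⟨qv.eval x.length + qm.eval (pd c x).length, fun A A' h => ?_⟩
      rw [hqv A A' x fun v hv => h v (hv.trans (Nat.le_add_right _ _)),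
        hqm A A' (pd c x) fun v hv => h v (hv.trans (Nat.le_add_left _ _))]
    have h1 := dens_bad (B := B) hloc hq
    have h2 := er_le M c
    have h3 := (tendsto_order.1 half_pow_tendsto).2 _ hq
    have h4 := (tendsto_order.1 half_pow_tendsto).2 (1 / 4 : ℝ≥0∞) (by norm_num)
    obtain ⟨m, ⟨⟨⟨h1, h2⟩, h3⟩, h4⟩, h5⟩ :=
      ((((h1.and h2).and h3).and h4).and (eventually_ge_atTop n)).exists
    have h6 : er M c m < 1 / 4 := by
      refine lt_of_le_of_lt ?_ h4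
      refine le_trans ?_ h2
      calc er M c m = 1 * er M c m := (one_mul _).symm
        _ ≤ (2 : ℝ≥0∞) ^ m * er M c m := by
          gcongr
          exact one_le_pow_of_one_le' (by norm_num) m
    have hsub : Z n ⊆ {ω | (∀ x, (Acc V p (orc B ω) x ↔
        M.out (orc B ω) (pd c x) = some [true])) ∧ (1 / 4 : ℝ≥0∞) ≤ randomOracle
          {ω' | ¬ ∀ x, (Acc V p (orc B (cmb (Low m) ω ω')) x ↔
            M.out (orc B (cmb (Low m) ω ω')) (pd c x) = some [true])}} ∪ Sp B M c m := by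
      rintro ω ⟨hω1, hω2⟩
      by_contra hcon
      rw [Set.mem_union, not_or] at hcon
      refine hω2 m h5 (good_of h6 hω1 (fun h7 => hcon.1 ⟨hω1, h7⟩) hcon.2)
    have h7 : randomOracle (Z n) ≤ randomOracle (Z n) / 4 + randomOracle (Z n) / 4 :=
      (measure_mono hsub).trans ((measure_union_le _ _).trans
        (add_le_add h1 ((measure_Sp B M c m).trans (h2.trans h3.le))))
    have h8 : randomOracle (Z n) / 4 + randomOracle (Z n) / 4 < randomOracle (Z n) := by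
      have h9 : randomOracle (Z n) / 4 + randomOracle (Z n) / 4 = randomOracle (Z n) / 2 := by
        rw [ENNReal.div_add_div_same, ← two_mul, show (4 : ℝ≥0∞) = 2 * 2 by norm_num,
          ENNReal.mul_div_mul_left _ _ (by norm_num) (by norm_num)]
      rw [h9]
      exact ENNReal.half_lt_self hne (measure_ne_top _ _)
    exact absurd h7 (not_le.2 h8)
  have hU : randomOracle (⋃ n, Z n) = 0 := measure_iUnion_null hZ
  rw [ae_iff]
  refine measure_mono_null ?_ hU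
  intro ω hω
  rw [Set.mem_ofPred_eq, Classical.not_imp, not_frequently, eventually_atTop] at hω
  obtain ⟨h1, n, h2⟩ := hω
  exact Set.mem_iUnion.2 ⟨n, h1, h2⟩

end Pool.Agent.W2helper61.Mes
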