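import Pool.Agent.W2helper61.Mes.Str
import Pool.Agent.W2helper61.Mes.Lim

/-!
# No null cover in `p₂` succeeds on the columns
-/

namespace Pool.Agent.W2helper61.Mes

open MeasureTheory Filter Pool.Agent.NPC Pool.Agent.H628R3.RO
open scoped ENNReal Topology

/-! ### The inputs and the values -/

/-- the input for the algorithm computing a null cover -/
def qin (k r : ℕ) (w : List Bool) : List Bool := pairBits (ones k) (pairBits (ones r) w)

/-- the padded input -/
def pq (c : ℕ) (u : List Bool) : List Bool := pairBits u (ones (2 ^ (u.length.size ^ c)))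

theorem names_unique {u : List Bool} {q q' : ℝ} (h : Names u q) (h' : Names u q') : q = q' := by
  obtain ⟨s, a, b, h1, h2⟩ := h
  obtain ⟨s', a', b', h3, h4⟩ := h'
  rw [h1] at h3
  obtain ⟨h5, h6⟩ := List.cons.inj h3
  obtain ⟨h7, h8⟩ := pairBits_inj h6
  subst h5 h7 h8
  rw [h2, h4]

open Classical in
/-- the number named by an output -/
noncomputable def dyv (o : Option (List Bool)) : ℝ :=
  if h : ∃ q : ℝ, ∃ u, o = some u ∧ Names u q then h.choose else 0

theorem dyv_eq {u : List Bool} {q : ℝ} (h : Names u q) : dyv (some u) = q := by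
  have h1 : ∃ q : ℝ, ∃ u', some u = some u' ∧ Names u' q := ⟨q, u, rfl, h⟩
  unfold dyv
  rw [dif_pos h1]
  obtain ⟨u', h2, h3⟩ := h1.choose_spec
  have h4 : u = u' := Option.some.inj h2
  rw [← h4] at h3
  exact names_unique h3 h

/-! ### The kept coins -/

/-- all coins but those of column `K` for the strings from `str t` on -/
def Kp (K t : ℕ) : Set (List Bool) := {a | ∀ s i, a = cs K (str s) i → s < t}

theorem cs_mem_Kp {K t s i : ℕ} : cs K (str s) i ∈ Kp K t ↔ s < t := by
  constructor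
  · intro h; exact h s i rfl
  · intro h s' i' h'
    have := str_injective (cs_inj h').2.1
    omega

theorem Kp_mono {K s t : ℕ} (h : s ≤ t) : Kp K s ⊆ Kp K t :=
  fun _ ha s' i hs' => (ha s' i hs').trans_le h

theorem length_str_mono {s t : ℕ} (h : t ≤ s) : (str t).length ≤ (str s).length := by
  rw [length_str, length_str]
  have := Nat.size_le_size (show t + 1 ≤ s + 1 by omega)
  omega

theorem length_str_le (t : ℕ) : (str t).length ≤ t := by
  have h := (length_str_eq (n := t) (m := (str t).length)).1 rfl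
  have h2 : (str t).length < 2 ^ (str t).length := Nat.lt_two_pow_self
  omega

theorem blk_kp (K t : ℕ) : Blk (Kp K t) (((str t).length + 2) ^ (K + 2)) := by
  intro K' x
  obtain ⟨s, rfl⟩ := str_surjective x
  by_cases hK : K' = K
  · subst hK
    rcases Nat.lt_or_ge s t with h | h
    · exact Or.inl fun i _ => cs_mem_Kp.2 h
    · refine Or.inr ⟨fun i hi => absurd (cs_mem_Kp.1 hi) (by omega), ?_⟩
      unfold lev
      exact Nat.pow_le_pow_left (by have := length_str_mono h; omega) _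
  · exact Or.inl fun i _ s' i' h => (hK (cs_inj h).1).elim

/-- the seeds agree on the kept coins -/
def Agr (K t : ℕ) (ω ω' : Oracle) : Prop := ∀ a ∈ Kp K t, ω a = ω' a

theorem Agr.mono {K s t : ℕ} {ω ω' : Oracle} (h : Agr K t ω ω') (hs : s ≤ t) : Agr K s ω ω' :=
  fun a ha => h a (Kp_mono hs ha)

theorem pre_agr {K t : ℕ} {ω ω' : Oracle} (h : ∀ s < t, ω (cs K (str s) 0) = ω' (cs K (str s) 0)) :
    pre (LK ω K) t = pre (LK ω' K) t := by
  unfold pre
  refine List.map_congr_left fun s hs => ?_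
  have h1 := h s (List.mem_range.1 hs)
  have h2 : str s ∈ LK ω K ↔ str s ∈ LK ω' K := by
    unfold LK
    rw [Set.mem_ofPred_eq, Set.mem_ofPred_eq, h1]
  exact decide_eq_decide.2 h2

theorem Agr.pre {K t : ℕ} {ω ω' : Oracle} (h : Agr K t ω ω') :
    Mes.pre (LK ω K) t = Mes.pre (LK ω' K) t :=
  pre_agr fun _ hs => h _ (cs_mem_Kp.2 hs)

theorem Agr.cmb {K t : ℕ} {ω ω' : Oracle} (h : Agr K t ω ω') (ω₁ : Oracle) :
    Mes.cmb (Kp K t) ω ω₁ = Mes.cmb (Kp K t) ω' ω₁ := by
  funext a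
  by_cases ha : a ∈ Kp K t
  · rw [cmb_of_mem ha, cmb_of_mem ha, h a ha]
  · rw [cmb_of_notMem ha, cmb_of_notMem ha]

theorem agr_cmb (K t : ℕ) (ω ω' : Oracle) : Agr K t (cmb (Kp K t) ω ω') ω :=
  fun _ ha => cmb_of_mem ha

theorem agr_flp (K t i : ℕ) (ω : Oracle) : Agr K t (flp (cs K (str t) i) ω) ω := by
  intro a ha
  refine flp_of_ne ?_ ω
  rintro rfl
  exact absurd (cs_mem_Kp.1 ha) (lt_irrefl _)

/-! ### The supermartingale -/

/-- the precision -/
def rt (k t : ℕ) : ℕ := k + t + 3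

/-- the input at stage `t` -/
noncomputable def inq (c k K t : ℕ) (ω : Oracle) (b : Bool) : List Bool :=
  pq c (qin k (rt k t) (pre (LK ω K) t ++ [b]))

/-- its length -/
def Ln (c k t : ℕ) : ℕ := 2 * (4 * k + 3 * t + 9) + 1 + 2 ^ ((4 * k + 3 * t + 9).size ^ c)

theorem length_inq (c k K t : ℕ) (ω : Oracle) (b : Bool) :
    (inq c k K t ω b).length = Ln c k t := by
  have h1 : (qin k (rt k t) (pre (LK ω K) t ++ [b])).length = 4 * k + 3 * t + 9 := by
    unfold qin rt
    simp only [length_pairBits, length_ones, List.length_append, length_pre, List.length_cons,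
      List.length_nil]
    omega
  unfold inq pq
  rw [length_pairBits, length_ones, h1]
  rfl

theorem inq_agr {c k K t : ℕ} {ω ω' : Oracle} (h : Agr K t ω ω') (b : Bool) :
    inq c k K t ω b = inq c k K t ω' b := by
  unfold inq
  rw [h.pre]

variable (B : List Bool → Bool) (M : Alg) (c k K : ℕ)

/-- the value computed with the hidden oracle -/
noncomputable def vv (t : ℕ) (ω : Oracle) (b : Bool) : ℝ :=
  dyv (M.out (orc B (cmb (Kp K t) ω zer)) (inq c k K t ω b))

open Classical in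
/-- the supermartingale -/
noncomputable def SS : ℕ → Oracle → ℝ
  | 0, _ => (1 / 2) ^ k
  | t + 1, ω => if 1 ≤ SS t ω then SS t ω else
      if 0 ≤ vv B M c k K t ω false + (1 / 2) ^ (rt k t) ∧
        0 ≤ vv B M c k K t ω true + (1 / 2) ^ (rt k t) ∧
        vv B M c k K t ω false + vv B M c k K t ω true ≤ 2 * SS t ω + 2 * (1 / 2) ^ (rt k t) then
        vv B M c k K t ω (ω (cs K (str t) 0)) + (1 / 2) ^ (rt k t) else 0

theorem vv_agr {t : ℕ} {ω ω' : Oracle} (h : Agr K t ω ω') (b : Bool) :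
    vv B M c k K t ω b = vv B M c k K t ω' b := by
  unfold vv
  rw [h.cmb, inq_agr h]

theorem SS_agr {t : ℕ} {ω ω' : Oracle} (h : Agr K t ω ω') : SS B M c k K t ω = SS B M c k K t ω' := by
  induction t with
  | zero => rfl
  | succ t ih =>
    have h1 := h.mono (Nat.le_succ t)
    have h2 : ω (cs K (str t) 0) = ω' (cs K (str t) 0) := h _ (cs_mem_Kp.2 (Nat.lt_succ_self t))
    rw [SS, SS, ih h1, vv_agr B M c k K h1, vv_agr B M c k K h1, h2, vv_agr B M c k K h1]

theorem SS_nonneg (t : ℕ) (ω : Oracle) : 0 ≤ SS B M c k K t ω := by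
  induction t with
  | zero => rw [SS]; positivity
  | succ t ih =>
    rw [SS]
    split_ifs with h1 h2
    · exact ih
    · cases ω (cs K (str t) 0)
      · exact h2.1
      · exact h2.2.1
    · exact le_rfl

theorem SS_flp (t : ℕ) (ω : Oracle) :
    SS B M c k K (t + 1) ω + SS B M c k K (t + 1) (flp (cs K (str t) 0) ω) ≤
      2 * SS B M c k K t ω + 4 * (1 / 2) ^ (rt k t) := by
  have hag := agr_flp K t 0 ω
  have h0 := SS_nonneg B M c k K t ω
  have hε : (0 : ℝ) < (1 / 2) ^ (rt k t) := by positivity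
  rw [SS, SS, SS_agr B M c k K hag, vv_agr B M c k K hag, vv_agr B M c k K hag,
    vv_agr B M c k K hag, flp_self]
  split_ifs with h1 h2
  · linarith
  · obtain ⟨_, _, h3⟩ := h2
    cases ω (cs K (str t) 0)
    · simp only [Bool.not_false]; linarith
    · simp only [Bool.not_true]; linarith
  · linarith

theorem dep_all (t : ℕ) : ∃ N, ∀ ω ω' : Oracle, (∀ s : List Bool, s.length ≤ N → ω s = ω' s) →
    ω (cs K (str t) 0) = ω' (cs K (str t) 0) ∧ ∀ b, inq c k K t ω b = inq c k K t ω' b ∧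
      M.out (orc B ω) (inq c k K t ω b) = M.out (orc B ω') (inq c k K t ω' b) ∧
      M.out (orc B (cmb (Kp K t) ω zer)) (inq c k K t ω b) =
        M.out (orc B (cmb (Kp K t) ω' zer)) (inq c k K t ω' b) := by
  obtain ⟨qb, hqb⟩ := out_congr' M
  refine ⟨max (K + t + 2) (bdc (qb.eval (Ln c k t))), fun ω ω' h => ⟨?_, fun b => ?_⟩⟩
  · refine h _ ?_
    rw [length_cs]
    have := length_str_le t
    exact le_trans (by omega) (le_max_left _ _)
  have h1 : inq c k K t ω b = inq c k K t ω' b := by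
    unfold inq
    rw [pre_agr (ω' := ω') fun s hs => h _ ?_]
    rw [length_cs]
    have := length_str_le s
    exact le_trans (by omega) (le_max_left _ _)
  refine ⟨h1, ?_, ?_⟩
  · rw [h1]
    refine hqb _ _ _ fun v hv => ?_
    rw [length_inq] at hv
    exact orc_dep B (fun s hs => h s (hs.trans (le_max_right _ _))) hv
  · rw [h1]
    refine hqb _ _ _ fun v hv => ?_
    rw [length_inq] at hv
    refine orc_dep B (fun s hs => ?_) hv
    unfold cmb
    rw [h s (hs.trans (le_max_right _ _))]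

theorem dep_SS (t : ℕ) : ∃ N, Dep N (SS B M c k K t) := by
  induction t with
  | zero => exact ⟨0, fun ω ω' _ => rfl⟩
  | succ t ih =>
    obtain ⟨N₁, h1⟩ := ih
    obtain ⟨N₂, h2⟩ := dep_all B M c k K t
    refine ⟨max N₁ N₂, fun ω ω' h => ?_⟩
    have h3 := h1 ω ω' fun s hs => h s (hs.trans (le_max_left _ _))
    obtain ⟨h4, h5⟩ := h2 ω ω' fun s hs => h s (hs.trans (le_max_right _ _))
    have h6 : ∀ b, vv B M c k K t ω b = vv B M c k K t ω' b := by
      intro b
      unfold vv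
      rw [(h5 b).2.2]
    rw [SS, SS, h3, h4, h6, h6, h6]

theorem measurable_SS (t : ℕ) : Measurable (SS B M c k K t) := by
  obtain ⟨N, hN⟩ := dep_SS B M c k K t
  exact hN.measurable

theorem lint_succ (t : ℕ) : ∫⁻ ω, ENNReal.ofReal (SS B M c k K (t + 1) ω) ∂randomOracle ≤
    ∫⁻ ω, ENNReal.ofReal (SS B M c k K t ω) ∂randomOracle +
      ENNReal.ofReal (2 * (1 / 2) ^ (rt k t)) := by
  have hf : Measurable (fun ω => ENNReal.ofReal (SS B M c k K (t + 1) ω)) :=
    (measurable_SS B M c k K (t + 1)).ennreal_ofReal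
  have hg : Measurable (fun ω => ENNReal.ofReal (SS B M c k K t ω)) :=
    (measurable_SS B M c k K t).ennreal_ofReal
  have h1 := (flp_mp (cs K (str t) 0)).lintegral_comp hf
  have h2 : (2 : ℝ≥0∞) * ∫⁻ ω, ENNReal.ofReal (SS B M c k K (t + 1) ω) ∂randomOracle ≤
      2 * (∫⁻ ω, ENNReal.ofReal (SS B M c k K t ω) ∂randomOracle +
        ENNReal.ofReal (2 * (1 / 2) ^ (rt k t))) := by
    calc (2 : ℝ≥0∞) * ∫⁻ ω, ENNReal.ofReal (SS B M c k K (t + 1) ω) ∂randomOracle
        = ∫⁻ ω, ENNReal.ofReal (SS B M c k K (t + 1) ω) ∂randomOracle +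
          ∫⁻ ω, ENNReal.ofReal (SS B M c k K (t + 1) (flp (cs K (str t) 0) ω))
            ∂randomOracle := by rw [h1, two_mul]
      _ = ∫⁻ ω, (ENNReal.ofReal (SS B M c k K (t + 1) ω) +
          ENNReal.ofReal (SS B M c k K (t + 1) (flp (cs K (str t) 0) ω))) ∂randomOracle :=
          (lintegral_add_left hf _).symm
      _ ≤ ∫⁻ ω, (2 * ENNReal.ofReal (SS B M c k K t ω) +
          2 * ENNReal.ofReal (2 * (1 / 2) ^ (rt k t))) ∂randomOracle := by
          refine lintegral_mono fun ω => ?_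
          have h3 := SS_flp B M c k K t ω
          have h4 := SS_nonneg B M c k K t ω
          rw [← ENNReal.ofReal_add (SS_nonneg B M c k K _ _) (SS_nonneg B M c k K _ _)]
          have e2 : (2 : ℝ≥0∞) = ENNReal.ofReal 2 := by simp
          rw [e2, ← ENNReal.ofReal_mul (by norm_num), ← ENNReal.ofReal_mul (by norm_num),
            ← ENNReal.ofReal_add (by positivity) (by positivity)]
          exact ENNReal.ofReal_le_ofReal (by linarith)
      _ = 2 * (∫⁻ ω, ENNReal.ofReal (SS B M c k K t ω) ∂randomOracle +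
        ENNReal.ofReal (2 * (1 / 2) ^ (rt k t))) := by
          rw [lintegral_add_right _ measurable_const, lintegral_const_mul _ hg, lintegral_const,
            measure_univ, mul_one, mul_add]
  exact (ENNReal.mul_le_mul_iff_right (by norm_num) (by norm_num)).1 h2

theorem lint_le (t : ℕ) : ∫⁻ ω, ENNReal.ofReal (SS B M c k K t ω) ∂randomOracle ≤
    ENNReal.ofReal (2 * (1 / 2) ^ k - (1 / 2) ^ (k + t)) := by
  induction t with
  | zero =>
    have : ∀ ω, SS B M c k K 0 ω = (1 / 2) ^ k := fun ω => by rw [SS]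
    simp only [this, lintegral_const, measure_univ, mul_one, add_zero]
    exact ENNReal.ofReal_le_ofReal (by linarith)
  | succ t ih =>
    refine (lint_succ B M c k K t).trans ((add_le_add_left ih _).trans ?_)
    have h1 : ((1 : ℝ) / 2) ^ (k + t) ≤ (1 / 2) ^ k :=
      pow_le_pow_of_le_one (by norm_num) (by norm_num) (by omega)
    have h2 : (0 : ℝ) < (1 / 2) ^ k := by positivity
    have h3 : (0 : ℝ) < (1 / 2) ^ (k + t) := by positivity
    rw [← ENNReal.ofReal_add (by linarith) (by positivity)]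
    refine ENNReal.ofReal_le_ofReal ?_
    have h4 : ((1 : ℝ) / 2) ^ (rt k t) = (1 / 2) ^ (k + t) / 8 := by
      unfold rt; rw [pow_add]; ring
    have h5 : ((1 : ℝ) / 2) ^ (k + (t + 1)) = (1 / 2) ^ (k + t) / 2 := by
      rw [← add_assoc, pow_succ]; ring
    rw [h4, h5]
    linarith

theorem measure_win : randomOracle (⋃ t, {ω | 1 ≤ SS B M c k K t ω}) ≤
    ENNReal.ofReal (2 * (1 / 2) ^ k) := by
  have hmono : Monotone (fun t => {ω | 1 ≤ SS B M c k K t ω}) := by
    refine monotone_nat_of_le_succ fun t ω h => ?_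
    change 1 ≤ SS B M c k K t ω at h
    change 1 ≤ SS B M c k K (t + 1) ω
    rw [SS, if_pos h]
    exact h
  rw [hmono.measure_iUnion]
  refine iSup_le fun t => ?_
  have h1 := mul_meas_ge_le_lintegral (μ := randomOracle)
    ((measurable_SS B M c k K t).ennreal_ofReal) 1
  rw [one_mul] at h1
  have h2 : {ω | 1 ≤ SS B M c k K t ω} = {ω | 1 ≤ ENNReal.ofReal (SS B M c k K t ω)} := by
    ext ω
    simp only [Set.mem_ofPred_eq, ENNReal.one_le_ofReal]
  rw [h2]
  refine h1.trans ((lint_le B M c k K t).trans (ENNReal.ofReal_le_ofReal ?_))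
  have : (0 : ℝ) < (1 / 2) ^ (k + t) := by positivity
  linarith

/-! ### Hits -/

/-- at stage `t` the algorithm notices a hidden coin -/
def Hit (t : ℕ) : Set Oracle :=
  {ω | ∃ b, M.out (orc B ω) (inq c k K t ω b) ≠
    M.out (orc B (cmb (Kp K t) ω zer)) (inq c k K t ω b)}

theorem measure_hit (t : ℕ) : randomOracle (Hit B M c k K t) ≤
    2 * (((M.p.eval (Ln c k t) : ℕ) : ℝ≥0∞) *
      (2⁻¹ : ℝ≥0∞) ^ (((str t).length + 2) ^ (K + 2))) := by
  have hmeas : MeasurableSet (Hit B M c k K t) := by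
    obtain ⟨N, hN⟩ := dep_all B M c k K t
    refine Dep.measurableSet (N := N) fun ω ω' h => ?_
    obtain ⟨_, h2⟩ := hN ω ω' h
    refine propext (exists_congr fun b => ?_)
    rw [(h2 b).2.1, (h2 b).2.2]
  refine measure_le_of_fiber (Kp K t) hmeas fun ω₀ => ?_
  have hsub : {ω | cmb (Kp K t) ω₀ ω ∈ Hit B M c k K t} ⊆
      {ω | M.out (orc B (cmb (Kp K t) ω₀ ω)) (inq c k K t ω₀ false) ≠
        M.out (orc B (cmb (Kp K t) ω₀ zer)) (inq c k K t ω₀ false)} ∪
      {ω | M.out (orc B (cmb (Kp K t) ω₀ ω)) (inq c k K t ω₀ true) ≠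
        M.out (orc B (cmb (Kp K t) ω₀ zer)) (inq c k K t ω₀ true)} := by
    rintro ω ⟨b, hb⟩
    rw [inq_agr (agr_cmb K t ω₀ ω), cmb_cmb] at hb
    cases b
    · exact Or.inl hb
    · exact Or.inr hb
  refine (measure_mono hsub).trans ((measure_union_le _ _).trans ?_)
  rw [two_mul]
  have h1 := fun b => measure_run (blk_kp K t) B M ω₀ (inq c k K t ω₀ b)
  simp only [length_inq] at h1
  exact add_le_add (h1 false) (h1 true)

theorem hit_small (j : ℕ) : ∃ K, ∀ t, randomOracle (Hit B M c k K t) ≤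
    (2⁻¹ : ℝ≥0∞) ^ (2 * ((str t).length + 1) + j) := by
  obtain ⟨a, ha⟩ := poly_le_pow M.p
  obtain ⟨b, hb⟩ := poly_le_pow ((Polynomial.C 1 + ((Polynomial.X + Polynomial.C (k + 5)) +
    (Polynomial.X + Polynomial.C (k + 5)) ^ c + Polynomial.C 3) * Polynomial.C a) +
    (Polynomial.C 2 * (Polynomial.X + Polynomial.C 1) + Polynomial.C j) : Polynomial ℕ)
  refine ⟨b, fun t => (measure_hit B M c k b t).trans ?_⟩
  obtain ⟨n, hn⟩ : ∃ n, n = (str t).length := ⟨_, rfl⟩
  rw [← hn]
  have hb' := hb n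
  simp only [Polynomial.eval_add, Polynomial.eval_mul, Polynomial.eval_pow, Polynomial.eval_C,
    Polynomial.eval_X] at hb'
  have ht := (length_str_eq (n := t) (m := n)).1 hn.symm
  obtain ⟨σ, hσ⟩ : ∃ σ, σ = n + (k + 5) := ⟨_, rfl⟩
  rw [← hσ] at hb'
  have h1 : 4 * k + 3 * t + 9 < 2 ^ σ := by
    have h2 : k < 2 ^ k := Nat.lt_two_pow_self
    have h3 : 2 ^ k ≤ 2 ^ (n + k) := Nat.pow_le_pow_right (by norm_num) (by omega)
    have h4 : 2 ^ n ≤ 2 ^ (n + k) := Nat.pow_le_pow_right (by norm_num) (by omega)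
    have h5 : 2 ^ σ = 32 * 2 ^ (n + k) := by
      rw [hσ, show n + (k + 5) = (n + k) + 5 by omega, pow_add]; ring
    have h6 : 2 ^ (n + 1) = 2 * 2 ^ n := by rw [pow_succ]; ring
    omega
  have h2 : (4 * k + 3 * t + 9).size ≤ σ := Nat.size_le.2 h1
  have h3 : Ln c k t + 2 ≤ 2 ^ (σ + σ ^ c + 3) := by
    unfold Ln
    have h4 : 2 ^ ((4 * k + 3 * t + 9).size ^ c) ≤ 2 ^ (σ + σ ^ c) :=
      Nat.pow_le_pow_right (by norm_num)
        ((Nat.pow_le_pow_left h2 c).trans (Nat.le_add_left _ _))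
    have h5 : 2 ^ σ ≤ 2 ^ (σ + σ ^ c) := Nat.pow_le_pow_right (by norm_num) (Nat.le_add_right _ _)
    have h6 : 2 ^ (σ + σ ^ c + 3) = 8 * 2 ^ (σ + σ ^ c) := by rw [pow_add]; ring
    have h7 : 0 < 2 ^ (σ + σ ^ c) := by positivity
    omega
  have h4 : 2 * M.p.eval (Ln c k t) ≤ 2 ^ (1 + (σ + σ ^ c + 3) * a) := by
    rw [pow_add, pow_one, pow_mul]
    exact Nat.mul_le_mul_left _ ((ha _).trans (Nat.pow_le_pow_left h3 a))
  have h5 : (2 : ℝ≥0∞) * ((M.p.eval (Ln c k t) : ℕ) : ℝ≥0∞) ≤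
      (2 : ℝ≥0∞) ^ (1 + (σ + σ ^ c + 3) * a) := by exact_mod_cast h4
  rw [← mul_assoc]
  refine (mul_le_mul_left h5 _).trans (two_pow_mul_le ?_)
  have h6 : (n + 2) ^ b ≤ (n + 2) ^ (b + 2) := Nat.pow_le_pow_right (by omega) (by omega)
  omega

theorem hits_small (j : ℕ) : ∃ K, randomOracle (⋃ t, Hit B M c k K t) ≤ (2⁻¹ : ℝ≥0∞) ^ j := by
  obtain ⟨K, hK⟩ := hit_small B M c k j
  refine ⟨K, ?_⟩
  have hsub : (⋃ t, Hit B M c k K t) ⊆
      ⋃ n, ⋃ t ∈ (Finset.range (2 ^ (n + 1))).filter (fun t => (str t).length = n),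
        Hit B M c k K t := by
    intro ω hω
    obtain ⟨t, ht⟩ := Set.mem_iUnion.1 hω
    refine Set.mem_iUnion.2 ⟨(str t).length, Set.mem_biUnion ?_ ht⟩
    rw [Finset.mem_coe, Finset.mem_filter, Finset.mem_range]
    have := (length_str_eq (n := t) (m := (str t).length)).1 rfl
    exact ⟨by omega, rfl⟩
  refine (measure_mono hsub).trans ((measure_iUnion_le _).trans ?_)
  have h1 : ∀ n : ℕ, randomOracle (⋃ t ∈ (Finset.range (2 ^ (n + 1))).filter
      (fun t => (str t).length = n), Hit B M c k K t) ≤ (2⁻¹ : ℝ≥0∞) ^ (n + 1) * (2⁻¹ : ℝ≥0∞) ^ j := by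
    intro n
    refine (measure_biUnion_finset_le _ _).trans ?_
    refine (Finset.sum_le_sum (g := fun _ => (2⁻¹ : ℝ≥0∞) ^ (2 * (n + 1) + j)) fun t ht => ?_).trans ?_
    · have h2 := (Finset.mem_filter.1 ht).2
      have h3 := hK t
      rwa [h2] at h3
    · rw [Finset.sum_const, nsmul_eq_mul]
      have h4 : (((Finset.range (2 ^ (n + 1))).filter (fun t => (str t).length = n)).card : ℝ≥0∞) ≤
          (2 : ℝ≥0∞) ^ (n + 1) := by
        have h5 : ((Finset.range (2 ^ (n + 1))).filter (fun t => (str t).length = n)).card ≤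
            2 ^ (n + 1) := (Finset.card_filter_le _ _).trans (by rw [Finset.card_range])
        exact_mod_cast h5
      refine (mul_le_mul_left h4 _).trans ?_
      rw [← pow_add]
      exact two_pow_mul_le (by omega)
  refine (ENNReal.tsum_le_tsum h1).trans ?_
  rw [ENNReal.tsum_mul_right, ENNReal.tsum_geometric_add_one, ENNReal.one_sub_inv_two, inv_inv,
    ENNReal.inv_mul_cancel (by norm_num) (by norm_num), one_mul]

/-! ### The bad event -/

/-- the algorithm computes a null cover of the set of the columns -/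
def Bad : Set Oracle :=
  {ω | ∃ d : ℕ → List Bool → ℝ, (∀ k, IsDensity (d k)) ∧ (∀ k, d k [] ≤ (1 / 2) ^ k) ∧
    (∀ k r w, ∃ u q, M.out (orc B ω) (pq c (qin k r w)) = some u ∧ Names u q ∧
      |q - d k w| ≤ (1 / 2) ^ r) ∧
    ∀ K k, ∃ n, 1 ≤ d k (pre (LK ω K) n)}

theorem le_SS {ω : Oracle} (hω : ∀ t, ω ∉ Hit B M c k K t) {d : ℕ → List Bool → ℝ}
    (h1 : ∀ k, IsDensity (d k)) (h2 : ∀ k, d k [] ≤ (1 / 2) ^ k)
    (h3 : ∀ k r w, ∃ u q, M.out (orc B ω) (pq c (qin k r w)) = some u ∧ Names u q ∧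
      |q - d k w| ≤ (1 / 2) ^ r) (t : ℕ) :
    1 ≤ SS B M c k K t ω ∨ d k (pre (LK ω K) t) ≤ SS B M c k K t ω := by
  induction t with
  | zero =>
    right
    have : pre (LK ω K) 0 = [] := by simp [pre]
    rw [this, SS]
    exact h2 k
  | succ t ih =>
    by_cases hs : 1 ≤ SS B M c k K t ω
    · left
      rw [SS, if_pos hs]
      exact hs
    · right
      have ih' := ih.resolve_left hs
      have hv : ∀ b, |vv B M c k K t ω b - d k (pre (LK ω K) t ++ [b])| ≤ (1 / 2) ^ (rt k t) := by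
        intro b
        obtain ⟨u, q, h4, h5, h6⟩ := h3 k (rt k t) (pre (LK ω K) t ++ [b])
        have h7 : M.out (orc B ω) (inq c k K t ω b) =
            M.out (orc B (cmb (Kp K t) ω zer)) (inq c k K t ω b) := by
          by_contra hne
          exact hω t ⟨b, hne⟩
        have h8 : vv B M c k K t ω b = q := by
          unfold vv
          rw [← h7]
          change dyv (M.out (orc B ω) (pq c (qin k (rt k t) (pre (LK ω K) t ++ [b])))) = q
          rw [h4]
          exact dyv_eq h5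
        rw [h8]
        exact h6
      have hv0 := abs_le.1 (hv false)
      have hv1 := abs_le.1 (hv true)
      have hd0 := (h1 k).nonneg (pre (LK ω K) t ++ [false])
      have hd1 := (h1 k).nonneg (pre (LK ω K) t ++ [true])
      have hd2 := (h1 k).split (pre (LK ω K) t)
      rw [SS, if_neg hs, if_pos ⟨by linarith, by linarith, by linarith⟩]
      have hp : pre (LK ω K) (t + 1) = pre (LK ω K) t ++ [ω (cs K (str t) 0)] := by
        classical
        rw [pre_succ]
        congr 2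
        rw [Bool.eq_iff_iff, decide_eq_true_iff]
        rfl
      rw [hp]
      have hv2 := abs_le.1 (hv (ω (cs K (str t) 0)))
      linarith

theorem measure_Bad : randomOracle (Bad B M c) = 0 := by
  have h1 : ∀ k : ℕ, randomOracle (Bad B M c) ≤
      (2⁻¹ : ℝ≥0∞) ^ k + ENNReal.ofReal (2 * (1 / 2) ^ k) := by
    intro k
    obtain ⟨K, hK⟩ := hits_small B M c k k
    have hsub : Bad B M c ⊆ (⋃ t, Hit B M c k K t) ∪ (⋃ t, {ω | 1 ≤ SS B M c k K t ω}) := by
      rintro ω ⟨d, h1, h2, h3, h4⟩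
      by_cases hω : ∃ t, ω ∈ Hit B M c k K t
      · exact Or.inl (Set.mem_iUnion.2 hω)
      · right
        obtain ⟨n, hn⟩ := h4 K k
        refine Set.mem_iUnion.2 ⟨n, ?_⟩
        rcases le_SS B M c k K (fun t ht => hω ⟨t, ht⟩) h1 h2 h3 n with h5 | h5
        · exact h5
        · exact hn.trans h5
    exact (measure_mono hsub).trans ((measure_union_le _ _).trans
      (add_le_add hK (measure_win B M c k K)))
  have h2 : Tendsto (fun k : ℕ => (2⁻¹ : ℝ≥0∞) ^ k + ENNReal.ofReal (2 * (1 / 2) ^ k)) atTop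
      (𝓝 0) := by
    have h3 : Tendsto (fun k : ℕ => (2⁻¹ : ℝ≥0∞) ^ k) atTop (𝓝 0) :=
      ENNReal.tendsto_pow_atTop_nhds_zero_of_lt_one (by norm_num)
    have h4 : Tendsto (fun k : ℕ => (2 * (1 / 2) ^ k : ℝ)) atTop (𝓝 (2 * 0)) :=
      (tendsto_pow_atTop_nhds_zero_of_lt_one (by norm_num) (by norm_num)).const_mul 2
    have h5 := ENNReal.tendsto_ofReal h4
    have h6 := h3.add h5
    simpa using h6
  exact le_antisymm (ge_of_tendsto' h2 h1) zero_le

end Pool.Agent.W2helper61.Mes
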