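import Pool.Agent.W2helper61.Mes.Fp
import Pool.Agent.W2helper61.Mes.Ville

/-!
# The oracle
-/

namespace Pool.Agent.W2helper61.Mes

open MeasureTheory Filter Pool.Agent.NPC Pool.Agent.H628R3.RO
open scoped ENNReal Topology

theorem countable_polynomial : Countable (Polynomial ℕ) := by
  have : Function.Injective (fun p : Polynomial ℕ => (p.toFinsupp.coeff : ℕ →₀ ℕ)) := by
    intro p q h
    ext n
    exact DFunLike.congr_fun h n
  exact this.countable

instance : Nonempty Alg := ⟨⟨fun x => x, polyTime_id, 0⟩⟩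

theorem exists_enum : ∃ e : ℕ → Alg × Polynomial ℕ, Function.Surjective e := by
  have h1 : Countable (Polynomial ℕ) := countable_polynomial
  have h2 : Countable (Alg × Polynomial ℕ) := inferInstance
  exact exists_surjective_nat _

theorem oracle_separation : ∃ A : Oracle, NullP A {L | IsNP A L ∧ InE A L} ∧
    ¬ NullP2 A {L | IsNP A L ∧ InE2 A L} := by
  obtain ⟨e, he⟩ := exists_enum
  obtain ⟨lb, hlb⟩ := exists_lb e
  obtain ⟨B, hB⟩ := exists_guide hlb
  have h1 : ∀ᵐ ω ∂randomOracle, ∀ (i : ℕ) (M : Alg) (c : ℕ),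
      ω ∈ Ev B (e i).1 (e i).2 M c → ∃ᶠ m in atTop, Good B (e i).1 (e i).2 m ω := by
    rw [ae_all_iff]
    intro i
    rw [ae_all_iff]
    intro M
    rw [ae_all_iff]
    intro c
    exact ae_good B _ _ M c
  have h2 : ∀ᵐ ω ∂randomOracle, ∀ (M : Alg) (c : ℕ), ω ∉ Bad B M c := by
    rw [ae_all_iff]
    intro M
    rw [ae_all_iff]
    intro c
    exact measure_eq_zero_iff_ae_notMem.1 (measure_Bad B M c)
  obtain ⟨ω, h3, h4⟩ := (h1.and h2).exists
  refine ⟨orc B ω, ?_, ?_⟩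
  · obtain ⟨F, hF1, hF2⟩ := approx_dk hB ω
    refine ⟨dk e lb B, F, ⟨fun k => isDensity_dk e lb B k, fun k => dk_nil e lb B k, ?_⟩, hF1, hF2⟩
    rintro k L ⟨⟨V, p, ⟨V', hV'⟩, hL⟩, ⟨c, F', ⟨M, hM⟩, hF'⟩⟩
    obtain ⟨i, hi⟩ := he (V', p)
    have hL' : L = {x | Acc (e i).1 (e i).2 (orc B ω) x} := by
      ext x
      rw [hL, hi]
      refine exists_congr fun w => and_congr_right fun _ => ?_
      rw [hV', Option.some.injEq]
    have h5 : ω ∈ Ev B (e i).1 (e i).2 M c := by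
      intro x
      have h6 : Acc (e i).1 (e i).2 (orc B ω) x ↔ x ∈ L := by rw [hL']; rfl
      rw [h6, hF' x, hM, Option.some.injEq]
      rfl
    rw [hL']
    exact dk_cover hlb (h3 i M c h5) k
  · rintro ⟨d, F, ⟨hd1, hd2, hd3⟩, ⟨c, F', ⟨M, hM⟩, hF'⟩, hF⟩
    refine h4 M c ⟨d, hd1, hd2, fun k r w => ?_, fun K k => ?_⟩
    · obtain ⟨q, hq1, hq2⟩ := hF k r w
      refine ⟨_, q, rfl.trans (hM _), ?_, hq2⟩
      rw [hF'] at hq1
      exact hq1
    · exact hd3 k _ ⟨isNP_LK B ω K, inE2_LK B ω K⟩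

end Pool.Agent.W2helper61.Mes
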