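import Pool.Agent.H628R3.RO.M1

/-!
# Product measure tools: combining two random seeds, flipping a coin, cylinders
-/

namespace Pool.Agent.W2helper61.Mes

open MeasureTheory Pool.Agent.H628R3.RO
open scoped ENNReal

open Classical in
/-- The seed which is `ω₀` on `S` and `ω` outside of `S`. -/
noncomputable def cmb (S : Set (List Bool)) (ω₀ ω : Oracle) : Oracle :=
  fun s => if s ∈ S then ω₀ s else ω s

theorem cmb_of_mem {S : Set (List Bool)} {ω₀ ω : Oracle} {s : List Bool} (h : s ∈ S) :
    cmb S ω₀ ω s = ω₀ s := by simp [cmb, h]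

theorem cmb_of_notMem {S : Set (List Bool)} {ω₀ ω : Oracle} {s : List Bool} (h : s ∉ S) :
    cmb S ω₀ ω s = ω s := by simp [cmb, h]

theorem measurable_cmb (S : Set (List Bool)) :
    Measurable (fun p : Oracle × Oracle => cmb S p.1 p.2) := by
  refine measurable_pi_lambda _ fun s => ?_
  by_cases h : s ∈ S
  · simp only [cmb_of_mem h]
    exact (measurable_pi_apply s).comp measurable_fst
  · simp only [cmb_of_notMem h]
    exact (measurable_pi_apply s).comp measurable_snd

theorem cmb_mp (S : Set (List Bool)) :
    MeasurePreserving (fun p : Oracle × Oracle => cmb S p.1 p.2)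
      (randomOracle.prod randomOracle) randomOracle := by
  classical
  refine ⟨measurable_cmb S, ?_⟩
  refine Measure.eq_infinitePi _ fun s t ht => ?_
  have hpi : MeasurableSet (Set.pi (s : Set (List Bool)) t) :=
    MeasurableSet.pi s.countable_toSet fun i _ => ht i
  rw [Measure.map_apply (measurable_cmb S) hpi]
  have h1 : (fun p : Oracle × Oracle => cmb S p.1 p.2) ⁻¹' (Set.pi (s : Set (List Bool)) t) =
      (Set.pi ((s.filter (· ∈ S) : Finset (List Bool)) : Set (List Bool)) t) ×ˢ
        (Set.pi ((s.filter (¬ · ∈ S) : Finset (List Bool)) : Set (List Bool)) t) := by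
    ext ⟨a, b⟩
    simp only [Set.mem_preimage, Set.mem_pi, Finset.mem_coe, Finset.mem_filter, Set.mem_prod]
    constructor
    · intro h
      refine ⟨fun i hi => ?_, fun i hi => ?_⟩
      · have := h i hi.1
        rwa [cmb_of_mem hi.2] at this
      · have := h i hi.1
        rwa [cmb_of_notMem hi.2] at this
    · rintro ⟨h1, h2⟩ i hi
      by_cases h : i ∈ S
      · rw [cmb_of_mem h]; exact h1 i ⟨hi, h⟩
      · rw [cmb_of_notMem h]; exact h2 i ⟨hi, h⟩
  rw [h1, Measure.prod_prod]
  unfold randomOracle
  rw [Measure.infinitePi_pi (fun _ : List Bool => coin) (fun i _ => ht i),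
    Measure.infinitePi_pi (fun _ : List Bool => coin) (fun i _ => ht i),
    Finset.prod_filter_mul_prod_filter_not]

theorem lintegral_fiber (S : Set (List Bool)) {T : Set Oracle} (hT : MeasurableSet T) :
    ∫⁻ ω₀, randomOracle {ω | cmb S ω₀ ω ∈ T} ∂randomOracle = randomOracle T := by
  rw [← (cmb_mp S).measure_preimage hT.nullMeasurableSet,
    Measure.prod_apply (measurable_cmb S hT)]
  rfl

theorem measurable_fiber (S : Set (List Bool)) {T : Set Oracle} (hT : MeasurableSet T) :
    Measurable (fun ω₀ => randomOracle {ω | cmb S ω₀ ω ∈ T}) :=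
  measurable_measure_prodMk_left (measurable_cmb S hT)

theorem measure_le_of_fiber (S : Set (List Bool)) {T : Set Oracle} (hT : MeasurableSet T)
    {ε : ℝ≥0∞} (h : ∀ ω₀, randomOracle {ω | cmb S ω₀ ω ∈ T} ≤ ε) : randomOracle T ≤ ε := by
  rw [← lintegral_fiber S hT]
  calc ∫⁻ ω₀, randomOracle {ω | cmb S ω₀ ω ∈ T} ∂randomOracle
      ≤ ∫⁻ _, ε ∂randomOracle := lintegral_mono h
    _ = ε := by simp

/-- flip the coin `s` -/
def flp (s : List Bool) (ω : Oracle) : Oracle := Function.update ω s (!ω s)

theorem flp_self (s : List Bool) (ω : Oracle) : flp s ω s = !ω s := by simp [flp]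

theorem flp_of_ne {s s' : List Bool} (h : s' ≠ s) (ω : Oracle) : flp s ω s' = ω s' := by
  simp [flp, h]

theorem coin_map_not : coin.map (fun b => !b) = coin := by
  unfold coin
  rw [Measure.map_add _ _ (measurable_of_countable _), Measure.map_smul, Measure.map_smul,
    Measure.map_dirac' (measurable_of_countable _), Measure.map_dirac' (measurable_of_countable _)]
  simp only [Bool.not_true, Bool.not_false]
  rw [add_comm]

theorem flp_mp (s : List Bool) : MeasurePreserving (flp s) randomOracle randomOracle := by
  classical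
  have hf : ∀ i : List Bool, Measurable (fun b : Bool => if i = s then !b else b) :=
    fun i => measurable_of_countable _
  have h1 : flp s = fun (ω : Oracle) (i : List Bool) => if i = s then !(ω i) else ω i := by
    funext ω i
    by_cases h : i = s
    · subst h; simp [flp_self]
    · simp [flp_of_ne h, h]
  have hm : Measurable (flp s) := by
    rw [h1]
    exact measurable_pi_lambda _ fun i => (hf i).comp (measurable_pi_apply i)
  refine ⟨hm, ?_⟩
  have h2 := Measure.infinitePi_map_pi (μ := fun _ : List Bool => coin)
    (f := fun i (b : Bool) => if i = s then !b else b) hf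
  rw [h1]
  unfold randomOracle
  rw [h2]
  congr 1
  funext i
  by_cases h : i = s
  · simp only [h, if_true]
    exact coin_map_not
  · simp only [h, if_false]
    exact Measure.map_id

theorem coin_singleton (b : Bool) : coin {b} = 2⁻¹ := by
  rw [coin_apply]
  cases b <;> simp

/-- The probability that given coins show given values. -/
theorem measure_cyl (n : ℕ) (c : ℕ → List Bool) (hc : Function.Injective c) (y : ℕ → Bool) :
    randomOracle {ω | ∀ i < n, ω (c i) = y i} = (2⁻¹ : ℝ≥0∞) ^ n := by
  classical
  have h1 : {ω : Oracle | ∀ i < n, ω (c i) = y i} =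
      Set.pi (((Finset.range n).image c : Finset (List Bool)) : Set (List Bool))
        (fun s => {b | ∀ i, c i = s → b = y i}) := by
    ext ω
    simp only [Set.mem_ofPred_eq, Finset.coe_image, Set.mem_pi, Set.mem_image, Finset.mem_coe,
      Finset.mem_range]
    constructor
    · rintro h s ⟨i, hi, rfl⟩ j hj
      rw [hc hj]
      exact h i hi
    · intro h i hi
      exact h _ ⟨i, hi, rfl⟩ i rfl
  rw [h1]
  unfold randomOracle
  rw [Measure.infinitePi_pi (fun _ : List Bool => coin) (fun i _ => MeasurableSet.of_discrete),
    Finset.prod_image (fun a _ b _ h => hc h)]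
  have h2 : ∀ i ∈ Finset.range n, coin {b | ∀ j, c j = c i → b = y j} = 2⁻¹ := by
    intro i _
    have : {b | ∀ j, c j = c i → b = y j} = {y i} := by
      ext b
      simp only [Set.mem_ofPred_eq, Set.mem_singleton_iff]
      constructor
      · intro h; exact h i rfl
      · rintro rfl j hj; rw [hc hj]
    rw [this, coin_singleton]
  rw [Finset.prod_congr rfl h2]
  simp

end Pool.Agent.W2helper61.Mes
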