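import Pool.Agent.W2helper61.Mes.Defs
import Pool.Agent.W2helper61.Mes.Comb
import Pool.Agent.H628R3.RO.A3

/-!
# The oracle built from a guide `B` and a random seed `ω`
-/

namespace Pool.Agent.W2helper61.Mes

open MeasureTheory Pool.Agent.NPC Pool.Agent.H628R3.RO

/-- the strings naming the witness `y` for `x` in column `K` -/
def code (K : ℕ) (x y : List Bool) : List Bool := pairBits (ones K) (pairBits x y)

/-- the length of the witnesses for `x` in column `K` -/
def lev (K : ℕ) (x : List Bool) : ℕ := (x.length + 2) ^ (K + 2)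

/-- the coins of the pair `(K, x)` -/
def cs (K : ℕ) (x : List Bool) (i : ℕ) : List Bool := pos K i x

/-- the witness of the pair `(K, x)` -/
def wit (ω : Oracle) (K : ℕ) (x : List Bool) : List Bool :=
  (List.range (lev K x)).map (fun i => ω (cs K x (i + 1)))

open Classical in
/-- the random part of the oracle -/
noncomputable def posG (ω : Oracle) (v : List Bool) : Bool :=
  decide (∃ (K : ℕ) (x : List Bool), ω (cs K x 0) = true ∧ v = code K x (wit ω K x))

/-- the oracle with guide `B` and seed `ω` -/
noncomputable def orc (B : List Bool → Bool) (ω : Oracle) : Oracle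
  | [] => false
  | false :: v => B v
  | true :: v => posG ω v

/-- the language of column `K` -/
def LK (ω : Oracle) (K : ℕ) : Set (List Bool) := {x | ω (cs K x 0) = true}

theorem pairBits_inj {x w x' w' : List Bool} (h : pairBits x w = pairBits x' w') :
    x = x' ∧ w = w' := by
  have h1 := congrArg unpair h
  rw [unpair_pairBits, unpair_pairBits] at h1
  exact Prod.mk.inj h1

theorem ones_inj {m n : ℕ} (h : ones m = ones n) : m = n := by
  have := congrArg List.length h
  simpa [ones] using this

@[simp] theorem length_ones (n : ℕ) : (ones n).length = n := by simp [ones]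

theorem code_inj {K K' : ℕ} {x x' y y' : List Bool} (h : code K x y = code K' x' y') :
    K = K' ∧ x = x' ∧ y = y' := by
  obtain ⟨h1, h2⟩ := pairBits_inj h
  obtain ⟨h3, h4⟩ := pairBits_inj h2
  exact ⟨ones_inj h1, h3, h4⟩

theorem pos_inj' {c c' i i' : ℕ} {w w' : List Bool} (h : pos c i w = pos c' i' w') :
    c = c' ∧ i = i' ∧ w = w' := by
  have key : ∀ (a b : ℕ) (u v : List Bool), List.replicate a true ++ false :: u =
      List.replicate b true ++ false :: v → a = b ∧ u = v := by
    intro a
    induction a with
    | zero =>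
      intro b u v h
      cases b with
      | zero => simpa using h
      | succ b => simp [List.replicate_succ] at h
    | succ a ih =>
      intro b u v h
      cases b with
      | zero => simp [List.replicate_succ] at h
      | succ b =>
        simp only [List.replicate_succ, List.cons_append, List.cons.injEq, true_and] at h
        obtain ⟨h1, h2⟩ := ih b u v h
        exact ⟨by omega, h2⟩
  obtain ⟨h1, h2⟩ := key _ _ _ _ h
  obtain ⟨h3, h4⟩ := key _ _ _ _ h2
  exact ⟨h1, h3, h4⟩

theorem cs_inj {K K' i i' : ℕ} {x x' : List Bool} (h : cs K x i = cs K' x' i') :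
    K = K' ∧ x = x' ∧ i = i' := by
  obtain ⟨h1, h2, h3⟩ := pos_inj' h
  exact ⟨h1, h3, h2⟩

theorem length_wit (ω : Oracle) (K : ℕ) (x : List Bool) : (wit ω K x).length = lev K x := by
  simp [wit]

theorem posG_iff (ω : Oracle) (v : List Bool) : posG ω v = true ↔
    ∃ (K : ℕ) (x : List Bool), ω (cs K x 0) = true ∧ v = code K x (wit ω K x) := by
  classical
  unfold posG
  exact decide_eq_true_iff

theorem posG_code (ω : Oracle) (K : ℕ) (x y : List Bool) :
    posG ω (code K x y) = true ↔ ω (cs K x 0) = true ∧ y = wit ω K x := by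
  rw [posG_iff]
  constructor
  · rintro ⟨K', x', h1, h2⟩
    obtain ⟨rfl, rfl, rfl⟩ := code_inj h2
    exact ⟨h1, rfl⟩
  · rintro ⟨h1, rfl⟩
    exact ⟨K, x, h1, rfl⟩

theorem length_code (K : ℕ) (x y : List Bool) :
    (code K x y).length = 2 * K + 1 + (2 * x.length + 1 + y.length) := by
  unfold code
  rw [length_pairBits, length_pairBits, length_ones]

theorem mem_LK {B : List Bool → Bool} {ω : Oracle} {K : ℕ} {x : List Bool} :
    x ∈ LK ω K ↔ ∃ y : List Bool, y.length = lev K x ∧ orc B ω (true :: code K x y) = true := by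
  constructor
  · intro h
    exact ⟨wit ω K x, length_wit _ _ _, (posG_code _ _ _ _).2 ⟨h, rfl⟩⟩
  · rintro ⟨y, _, hy⟩
    exact ((posG_code _ _ _ _).1 hy).1

/-- the random part depends only on the relevant coins -/
theorem posG_congr {ω ω' : Oracle} {v : List Bool}
    (h : ∀ K x y, v = code K x y → ∀ i ≤ lev K x, ω (cs K x i) = ω' (cs K x i)) :
    posG ω v = posG ω' v := by
  have key : ∀ ω ω' : Oracle, (∀ K x y, v = code K x y → ∀ i ≤ lev K x,
      ω (cs K x i) = ω' (cs K x i)) → posG ω v = true → posG ω' v = true := by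
    intro ω ω' h hv
    rw [posG_iff] at hv
    obtain ⟨K, x, h1, h2⟩ := hv
    have h3 := h K x _ h2
    rw [h2, posG_code]
    refine ⟨by rw [← h3 0 (Nat.zero_le _)]; exact h1, ?_⟩
    unfold wit
    refine List.map_congr_left fun i hi => h3 _ ?_
    have := List.mem_range.1 hi
    omega
  rw [Bool.eq_iff_iff]
  exact ⟨key ω ω' h, key ω' ω fun K x y hv i hi => (h K x y hv i hi).symm⟩

end Pool.Agent.W2helper61.Mes
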