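import Pool.Agent.W2helper61.Mes.Defs

/-!
# The standard enumeration of the bit strings
-/

namespace Pool.Agent.W2helper61.Mes

open Pool.Agent.NPC

theorem bits_valB (l : List Bool) : (valB (l ++ [true])).bits = l ++ [true] := by
  induction l with
  | nil => simp
  | cons b l ih =>
    rw [List.cons_append, valB_cons]
    have h0 : valB (l ++ [true]) ≠ 0 := by
      intro h
      rw [h] at ih
      simp at ih
    have h1 : (if b = true then 1 else 0) + 2 * valB (l ++ [true]) =
        Nat.bit b (valB (l ++ [true])) := by
      cases b <;> simp [Nat.bit] <;> omega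
    rw [h1, Nat.bits_append_bit _ _ (fun h => (h0 h).elim), ih]

theorem length_str (n : ℕ) : (str n).length = (n + 1).size - 1 := by
  unfold str
  rw [List.length_tail, List.length_reverse, Nat.size_eq_bits_len]

theorem length_str_eq {n m : ℕ} : (str n).length = m ↔ 2 ^ m ≤ n + 1 ∧ n + 1 < 2 ^ (m + 1) := by
  rw [length_str]
  have h0 : 0 < (n + 1).size := Nat.size_pos.2 (by omega)
  rw [← Nat.lt_size, ← Nat.size_le]
  omega

theorem str_surjective : Function.Surjective str := by
  intro x
  have h1 : 0 < valB (x.reverse ++ [true]) := by
    rw [valB_append]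
    have : 0 < 2 ^ x.reverse.length := by positivity
    simp
  refine ⟨valB (x.reverse ++ [true]) - 1, ?_⟩
  unfold str
  rw [Nat.sub_add_cancel h1, bits_valB]
  simp

theorem str_injective : Function.Injective str := by
  intro a b h
  have key : ∀ n : ℕ, (n + 1).bits = (str n).reverse ++ [true] := by
    intro n
    have h1 : (n + 1).bits ≠ [] := by
      intro h
      have := valB_bits (n + 1)
      rw [h] at this
      simp at this
    have h2 : (n + 1).bits.getLast h1 = true := by
      have hn : n + 1 ≠ 0 := by omega
      have h3 := Nat.getLast_digit_ne_zero 2 hn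
      have h4 : Nat.digits 2 (n + 1) = (n + 1).bits.map (fun b => cond b 1 0) := Nat.digits_two_eq_bits _
      by_contra hf
      have hf' : (n + 1).bits.getLast h1 = false := by simpa using hf
      apply h3
      simp only [h4]
      rw [List.getLast_map, hf']
      rfl
    unfold str
    conv_lhs => rw [← List.dropLast_append_getLast h1, h2]
    congr 1
    rw [← List.dropLast_reverse]
    simp
  have h1 := key a
  rw [h, ← key b] at h1
  have h2 := congrArg valB h1
  rw [valB_bits, valB_bits] at h2
  omega

@[simp] theorem length_pre (L : Set (List Bool)) (n : ℕ) : (pre L n).length = n := by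
  simp [pre]

open Classical in
theorem pre_succ (L : Set (List Bool)) (n : ℕ) :
    pre L (n + 1) = pre L n ++ [decide (str n ∈ L)] := by
  simp [pre, List.range_succ]

theorem pre_getD (L : Set (List Bool)) {n p : ℕ} (hp : p < n) :
    (pre L n).getD p false = true ↔ str p ∈ L := by
  classical
  unfold pre
  rw [List.getD_eq_getElem _ _ (by simpa using hp)]
  simp

end Pool.Agent.W2helper61.Mes
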