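import Pool.Agent.W2helper61.Mes.Cover

/-!
# The null cover of `NP ∩ E` (continued)
-/

namespace Pool.Agent.W2helper61.Mes

open MeasureTheory Filter Pool.Agent.NPC Pool.Agent.H628R3.RO
open scoped ENNReal Topology

variable (e : ℕ → Alg × Polynomial ℕ) (lb : ℕ → ℕ → ℕ)

open Classical in
/-- the weight of the bets for machine `i` and length `m` -/
noncomputable def cf (k i m : ℕ) : ℝ := if lb i m ≤ 2 ^ m then (1 / 2) ^ (k + i + m + 2) else 0

/-- the null cover -/
noncomputable def dk (B : List Bool → Bool) (k : ℕ) (w : List Bool) : ℝ :=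
  ∑' x : ℕ × ℕ, cf lb k x.1 x.2 * DD e B x.1 x.2 w

theorem cf_nonneg (k i m : ℕ) : 0 ≤ cf lb k i m := by
  unfold cf; split_ifs <;> positivity

theorem cf_le (k i m : ℕ) : cf lb k i m ≤ (1 / 2) ^ k * ((1 / 2 / 2 ^ i) * (1 / 2 / 2 ^ m)) := by
  unfold cf
  split_ifs
  · refine le_of_eq ?_
    have h : ∀ n : ℕ, ((1 : ℝ) / 2) ^ n = 1 / 2 ^ n := fun n => one_div_pow 2 n
    rw [h, h, pow_add, pow_add, pow_add]
    field_simp
  · positivity

theorem hasSum_wt : HasSum (fun x : ℕ × ℕ => ((1 : ℝ) / 2 / 2 ^ x.1) * (1 / 2 / 2 ^ x.2)) 1 := by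
  have h1 := hasSum_geometric_two' (1 : ℝ)
  have h2 : Summable (fun x : ℕ × ℕ => ((1 : ℝ) / 2 / 2 ^ x.1) * (1 / 2 / 2 ^ x.2)) :=
    Summable.mul_of_nonneg h1.summable h1.summable (fun n => by positivity)
      (fun n => by positivity)
  have h3 := h1.mul h1 h2
  rwa [mul_one] at h3

theorem summable_dk (B : List Bool → Bool) (k : ℕ) (w : List Bool) :
    Summable (fun x : ℕ × ℕ => cf lb k x.1 x.2 * DD e B x.1 x.2 w) := by
  refine Summable.of_nonneg_of_le (fun x => mul_nonneg (cf_nonneg lb _ _ _) (DD_nonneg e _ _ _ _))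
    (fun x => ?_) ((hasSum_wt.summable.mul_left ((1 / 2 : ℝ) ^ k)).mul_right (2 ^ w.length))
  exact mul_le_mul (cf_le lb _ _ _) (DD_le e _ _ _ _) (DD_nonneg e _ _ _ _) (by positivity)

theorem dk_nonneg (B : List Bool → Bool) (k : ℕ) (w : List Bool) : 0 ≤ dk e lb B k w :=
  tsum_nonneg fun _ => mul_nonneg (cf_nonneg lb _ _ _) (DD_nonneg e _ _ _ _)

theorem dk_split (B : List Bool → Bool) (k : ℕ) (w : List Bool) :
    dk e lb B k (w ++ [false]) + dk e lb B k (w ++ [true]) = 2 * dk e lb B k w := by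
  unfold dk
  rw [← (summable_dk e lb B k _).tsum_add (summable_dk e lb B k _), ← tsum_mul_left]
  refine tsum_congr fun x => ?_
  rw [← mul_add, DD_split]
  ring

theorem dk_nil (B : List Bool → Bool) (k : ℕ) : dk e lb B k [] ≤ (1 / 2) ^ k := by
  have h1 := (summable_dk e lb B k []).tsum_le_tsum (g := fun x : ℕ × ℕ =>
    (1 / 2) ^ k * (((1 : ℝ) / 2 / 2 ^ x.1) * (1 / 2 / 2 ^ x.2)))
    (fun x => by
      rw [DD_nil, mul_one]
      exact cf_le lb _ _ _) (hasSum_wt.summable.mul_left _)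
  refine h1.trans ?_
  rw [tsum_mul_left, hasSum_wt.tsum_eq, mul_one]

theorem dk_le (B : List Bool → Bool) (k : ℕ) (w : List Bool) :
    dk e lb B k w ≤ (1 / 2) ^ k * 2 ^ w.length := by
  have h1 := (summable_dk e lb B k w).tsum_le_tsum (g := fun x : ℕ × ℕ =>
    ((1 / 2) ^ k * (((1 : ℝ) / 2 / 2 ^ x.1) * (1 / 2 / 2 ^ x.2))) * 2 ^ w.length)
    (fun x => mul_le_mul (cf_le lb _ _ _) (DD_le e _ _ _ _) (DD_nonneg e _ _ _ _)
      (by positivity)) ((hasSum_wt.summable.mul_left _).mul_right _)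
  refine h1.trans ?_
  rw [tsum_mul_right, tsum_mul_left, hasSum_wt.tsum_eq, mul_one]

theorem isDensity_dk (B : List Bool → Bool) (k : ℕ) : IsDensity (dk e lb B k) :=
  ⟨dk_nonneg e lb B k, fun w => by rw [dk_split]; linarith⟩

/-- the bounds are right and polynomial -/
def LB : Prop := (∀ i (A A' : Oracle) (x : List Bool),
    (∀ v : List Bool, v.length ≤ lb i x.length → A v = A' v) →
      (Acc (e i).1 (e i).2 A x ↔ Acc (e i).1 (e i).2 A' x)) ∧
  ∀ i, ∀ᶠ m in atTop, lb i m ≤ 2 ^ m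

theorem exists_lb : ∃ lb : ℕ → ℕ → ℕ, LB e lb := by
  choose q hq using fun i => acc_local (e i).1 (e i).2
  refine ⟨fun i m => (q i).eval m, fun i A A' x h => hq i A A' x h, fun i => ?_⟩
  obtain ⟨a, ha⟩ := poly_le_pow (q i)
  have h1 : ∀ᶠ m : ℕ in atTop, (m + 2) ^ a ≤ 2 ^ m := by
    have h2 : Tendsto (fun n : ℕ => ((n : ℝ) ^ a / 2 ^ n)) atTop (𝓝 0) := by
      have := tendsto_pow_const_div_const_pow_of_one_lt a (show (1 : ℝ) < 2 by norm_num)
      exact this
    have h3 := (h2.comp (tendsto_add_atTop_nat 2)).eventually (gt_mem_nhds (show (0 : ℝ) < 1 / 4 by norm_num))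
    filter_upwards [h3] with m hm
    simp only [Function.comp_apply] at hm
    rw [div_lt_iff₀ (by positivity), pow_add] at hm
    have h4 : (((m + 2 : ℕ) : ℝ)) ^ a ≤ 2 ^ m := by nlinarith [show (0 : ℝ) < 2 ^ m by positivity]
    exact_mod_cast h4
  filter_upwards [h1] with m hm
  exact (ha m).trans hm

variable {e lb}

theorem dk_cover (h : LB e lb) {B : List Bool → Bool} {i : ℕ} {ω : Oracle}
    (hg : ∃ᶠ m in atTop, Good B (e i).1 (e i).2 m ω) (k : ℕ) :
    ∃ n, 1 ≤ dk e lb B k (pre {x | Acc (e i).1 (e i).2 (orc B ω) x} n) := by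
  obtain ⟨m, ⟨hm1, hm2⟩, hm3⟩ :=
    ((hg.and_eventually (h.2 i)).and_eventually (dm_small (k + i + 2))).exists
  refine ⟨2 ^ (m + 1) - 1, ?_⟩
  have h1 := (summable_dk e lb B k (pre {x | Acc (e i).1 (e i).2 (orc B ω) x}
    (2 ^ (m + 1) - 1))).le_tsum (i, m) fun x _ => mul_nonneg (cf_nonneg lb _ _ _)
      (DD_nonneg e _ _ _ _)
  refine le_trans ?_ h1
  have h2 := DD_good e hm1
  have h3 : cf lb k i m = (1 / 2) ^ (k + i + m + 2) := by unfold cf; rw [if_pos hm2]
  simp only
  rw [h3]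
  have h4 : (1 : ℝ) ≤ (1 / 2) ^ (k + i + m + 2) * ((2 : ℝ) ^ (2 ^ m) / 2 ^ (dm m)) := by
    rw [one_div, inv_pow, ← div_eq_inv_mul, div_div, ← pow_add, le_div_iff₀ (by positivity),
      one_mul]
    exact pow_le_pow_right₀ (by norm_num) (by omega)
  exact h4.trans (mul_le_mul_of_nonneg_left h2 (by positivity))

/-! ### The guide -/

theorem prd_congr (h : LB e lb) {B B' : List Bool → Bool} {n i m : ℕ}
    (hB : ∀ u : List Bool, u.length < n → B u = B' u) (hm : lb i m ≤ n) (ω : Oracle)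
    {x : List Bool} (hx : x.length = m) :
    Prd B (e i).1 (e i).2 m ω x ↔ Prd B' (e i).1 (e i).2 m ω x := by
  have h1 : ∀ ω' : Oracle, Acc (e i).1 (e i).2 (orc B ω') x ↔ Acc (e i).1 (e i).2 (orc B' ω') x := by
    intro ω'
    refine h.1 i _ _ x fun v hv => ?_
    rcases v with _ | ⟨b, v⟩
    · rfl
    cases b with
    | false =>
      refine hB v ?_
      rw [hx] at hv
      simp only [List.length_cons] at hv
      omega
    | true => rfl
  unfold Prd
  simp only [h1]

theorem dk_congr (h : LB e lb) {B B' : List Bool → Bool} {n k : ℕ} {w : List Bool}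
    (hB : ∀ u : List Bool, u.length < n → B u = B' u) (hw : w.length ≤ n) :
    dk e lb B k w = dk e lb B' k w := by
  classical
  unfold dk
  refine tsum_congr fun x => ?_
  obtain ⟨i, m⟩ := x
  simp only
  by_cases hc : lb i m ≤ 2 ^ m
  · congr 1
    unfold DD
    congr 3
    unfold cnt
    congr 1
    refine Finset.filter_congr fun h' _ => ?_
    refine forall₂_congr fun p hp => ?_
    refine forall_congr' fun hm => ?_
    have h1 := (length_str_eq.1 hm).1
    rw [prd_congr h hB (i := i) (m := m) (by omega) (ind h') hm]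
  · unfold cf
    rw [if_neg hc, zero_mul, zero_mul]

open Classical in
/-- the operator whose fixed point is the guide -/
noncomputable def Phi (e : ℕ → Alg × Polynomial ℕ) (lb : ℕ → ℕ → ℕ) (B : List Bool → Bool)
    (v : List Bool) : Bool :=
  decide (∃ (k r : ℕ) (w : List Bool) (b : ℕ),
    v = pairBits (pairBits (ones k) (pairBits (ones r) w)) (ones b) ∧
      Nat.testBit ⌊(2 : ℝ) ^ r * dk e lb B k w⌋₊ b = true)

theorem phi_congr (h : LB e lb) {B B' : List Bool → Bool} {v : List Bool}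
    (hB : ∀ u : List Bool, u.length < v.length → B u = B' u) :
    Phi e lb B v = Phi e lb B' v := by
  classical
  unfold Phi
  congr 1
  refine propext (exists_congr fun k => exists_congr fun r => exists_congr fun w =>
    exists_congr fun b => and_congr_right fun hv => ?_)
  rw [dk_congr h hB (w := w)]
  rw [hv, length_pairBits, length_pairBits, length_pairBits]
  omega

theorem exists_guide (h : LB e lb) : ∃ B : List Bool → Bool, Phi e lb B = B := by
  let Bn : ℕ → List Bool → Bool := fun n => (Phi e lb)^[n] (fun _ => false)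
  have hs : ∀ n, Bn (n + 1) = Phi e lb (Bn n) := fun n =>
    Function.iterate_succ_apply' (Phi e lb) n _
  have key : ∀ n m (v : List Bool), v.length < n → v.length < m → Bn n v = Bn m v := by
    intro n
    induction n with
    | zero => intro m v hv; omega
    | succ n ih =>
      intro m v hn hm
      obtain ⟨m, rfl⟩ : ∃ m', m = m' + 1 := ⟨m - 1, by omega⟩
      rw [hs, hs]
      exact phi_congr h fun u hu => ih m u (by omega) (by omega)
  refine ⟨fun v => Bn (v.length + 1) v, ?_⟩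
  funext v
  rw [hs]
  refine phi_congr h fun u hu => ?_
  exact key _ _ u (by omega) (by omega)

theorem guide_code {B : List Bool → Bool} (hB : Phi e lb B = B) (k r : ℕ) (w : List Bool)
    (b : ℕ) : B (pairBits (pairBits (ones k) (pairBits (ones r) w)) (ones b)) =
      Nat.testBit ⌊(2 : ℝ) ^ r * dk e lb B k w⌋₊ b := by
  classical
  conv_lhs => rw [← hB]
  rw [Bool.eq_iff_iff]
  unfold Phi
  rw [decide_eq_true_iff]
  constructor
  · rintro ⟨k', r', w', b', h1, h2⟩
    obtain ⟨h3, h4⟩ := pairBits_inj h1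
    obtain ⟨h5, h6⟩ := pairBits_inj h3
    obtain ⟨h7, h8⟩ := pairBits_inj h6
    rw [ones_inj h4, ones_inj h5, ones_inj h7, h8]
    exact h2
  · intro h1
    exact ⟨k, r, w, b, rfl, h1⟩

end Pool.Agent.W2helper61.Mes
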