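import Pool.Agent.W2helper61.Mes.Null
import Pool.Agent.H628R3.RO.G1
import Pool.Agent.H628R3.RO.P2

/-!
# The algorithms
-/

namespace Pool.Agent.W2helper61.Mes

open Filter Pool.Agent.NPC Pool.Agent.H628R3.RO

theorem p_ones {α : Type} [TEnc α] {n : α → ℕ} (hn : UPoly n) : Poly (fun a => ones (n a)) :=
  p_replicate hn true

/-! ### Reading the null cover from the guide -/

/-- the questions to the guide -/
def hatQ (u : List Bool) : List (List Bool) :=
  (List.range (u.length + 1)).map (fun b => false :: pairBits u (ones (min b (u.length + 1))))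

theorem p_hatQ : Poly hatQ := by
  have h1 : UPoly (fun u : List Bool => u.length + 1) :=
    UPoly.add (UPoly.length Poly.id) (UPoly.const 1)
  refine NPC.Poly.map (l := fun u : List Bool => List.range (u.length + 1))
    (F := fun u b => false :: pairBits u (ones (min b (u.length + 1)))) (UPoly.range h1) ?_
  refine Poly.cons (NPC.Poly.const false) (H622R2.poly_pairBits (Poly.fst Poly.id) (p_ones ?_))
  refine UPoly.of_le (n := fun p : List Bool × ℕ => p.1.length + 1) ?_
    (h1.comp (Poly.fst Poly.id)) (fun a => min_le_right _ _)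
  exact Poly.min (Poly.snd Poly.id) ((h1.comp (Poly.fst Poly.id)).toPoly)

/-- the output -/
def hatH (z : List Bool × List Bool) : List Bool :=
  false :: pairBits z.2 (ones (unpair (unpair z.1).2).1.length)

theorem p_hatH : Poly hatH := by
  refine Poly.cons (NPC.Poly.const false) (H622R2.poly_pairBits (Poly.snd Poly.id) (p_ones ?_))
  exact UPoly.length (Poly.fst (poly_unpair.comp (Poly.snd (poly_unpair.comp (Poly.fst Poly.id)))))

theorem valB_testBits (n N : ℕ) :
    valB ((List.range N).map (fun b => n.testBit b)) = n % 2 ^ N := by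
  induction N with
  | zero => simp [Nat.mod_one]
  | succ N ih =>
    rw [List.range_succ, List.map_append, valB_append, ih, List.length_map, List.length_range,
      Nat.mod_pow_succ]
    congr 2
    rw [List.map_singleton, valB_cons, Nat.testBit_eq_decide_div_mod_eq]
    have h := Nat.mod_lt (n / 2 ^ N) (show 0 < 2 by norm_num)
    by_cases h1 : n / 2 ^ N % 2 = 1
    · simp [h1]
    · have h2 : n / 2 ^ N % 2 = 0 := by omega
      simp [h2]

variable {e : ℕ → Alg × Polynomial ℕ} {lb : ℕ → ℕ → ℕ}

theorem approx_dk {B : List Bool → Bool} (hB : Phi e lb B = B) (ω : Oracle) :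
    ∃ F : List Bool → List Bool, IsFP (orc B ω) F ∧ Approx F (dk e lb B) := by
  refine ⟨_, IsFP.tt p_hatQ p_hatH, fun k r w => ?_⟩
  let u := pairBits (ones k) (pairBits (ones r) w)
  let n : ℕ := ⌊(2 : ℝ) ^ r * dk e lb B k w⌋₊
  have hu : u.length = 2 * k + 1 + (2 * r + 1 + w.length) := by
    simp only [u, length_pairBits, length_ones]
  have h1 : (hatQ u).map (orc B ω) = (List.range (u.length + 1)).map (fun b => n.testBit b) := by
    unfold hatQ
    rw [List.map_map]
    refine List.map_congr_left fun b hb => ?_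
    have h2 := List.mem_range.1 hb
    rw [Function.comp_apply, min_eq_left h2.le]
    exact guide_code hB k r w b
  have hd0 := dk_nonneg e lb B k w
  have hd1 := dk_le e lb B k w
  have hn : n < 2 ^ (u.length + 1) := by
    have h3 : (n : ℝ) ≤ 2 ^ r * dk e lb B k w := Nat.floor_le (by positivity)
    have h4 : ((1 : ℝ) / 2) ^ k ≤ 1 := pow_le_one₀ (by norm_num) (by norm_num)
    have h5 : dk e lb B k w ≤ 2 ^ w.length :=
      hd1.trans (by nlinarith [show (0 : ℝ) < 2 ^ w.length by positivity])
    have h6 : (n : ℝ) ≤ 2 ^ (r + w.length) := by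
      rw [pow_add]
      exact h3.trans (mul_le_mul_of_nonneg_left h5 (by positivity))
    have h7 : n ≤ 2 ^ (r + w.length) := by exact_mod_cast h6
    exact h7.trans_lt (Nat.pow_lt_pow_right (by norm_num) (by omega))
  refine ⟨(n : ℝ) / 2 ^ r, ⟨false, (List.range (u.length + 1)).map (fun b => n.testBit b),
    ones r, ?_, ?_⟩, ?_⟩
  · change hatH (u, (hatQ u).map (orc B ω)) = _
    rw [h1]
    unfold hatH
    simp only [u, unpair_pairBits, length_ones]
  · rw [valB_testBits, Nat.mod_eq_of_lt hn, length_ones]
    simp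
  · have h3 : (n : ℝ) ≤ 2 ^ r * dk e lb B k w := Nat.floor_le (by positivity)
    have h4 : 2 ^ r * dk e lb B k w < n + 1 := Nat.lt_floor_add_one _
    have h5 : (0 : ℝ) < 2 ^ r := by positivity
    rw [one_div_pow, abs_le]
    constructor
    · rw [le_sub_iff_add_le, ← sub_eq_neg_add, sub_le_iff_le_add, ← add_div, le_div_iff₀ h5]
      linarith
    · have h6 : (n : ℝ) / 2 ^ r ≤ dk e lb B k w := by
        rw [div_le_iff₀ h5]; linarith
      have h7 : (0 : ℝ) < 1 / 2 ^ r := by positivity
      linarith

/-! ### The languages of the columns -/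

theorem u_lev {α : Type} [TEnc α] {x : α → List Bool} (K : ℕ) (hx : Poly x) :
    UPoly (fun a => lev K (x a)) := by
  have h := UPoly.eval (UPoly.length hx) ((Polynomial.X + Polynomial.C 2) ^ (K + 2) : Polynomial ℕ)
  have e : (fun a => ((Polynomial.X + Polynomial.C 2) ^ (K + 2) : Polynomial ℕ).eval (x a).length) =
      fun a => lev K (x a) := by
    funext a
    simp [lev]
  rwa [e] at h

theorem p_codeK {α : Type} [TEnc α] {x y : α → List Bool} (K : ℕ) (hx : Poly x) (hy : Poly y) :
    Poly (fun a => true :: code K (x a) (y a)) :=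
  Poly.cons (NPC.Poly.const true) (H622R2.poly_pairBits (NPC.Poly.const (ones K))
    (H622R2.poly_pairBits hx hy))

theorem isNP_LK (B : List Bool → Bool) (ω : Oracle) (K : ℕ) : IsNP (orc B ω) (LK ω K) := by
  refine isNP_of_tt (orc B ω) (LK ω K) (Q := fun z => [true :: code K z.1 z.2])
    (T := fun z => decide (z.1.2.length = lev K z.1.1) && decide (z.2 = [true]))
    (Poly.cons (p_codeK K (Poly.fst Poly.id) (Poly.snd Poly.id)) (NPC.Poly.const []))
    (Poly.and (Poly.decide_eq (Poly.length (Poly.snd (Poly.fst Poly.id)))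
      (u_lev K (Poly.fst (Poly.fst Poly.id))).toPoly)
      (Poly.decide_eq (Poly.snd Poly.id) (NPC.Poly.const [true])))
    ((Polynomial.X + Polynomial.C 2) ^ (K + 2)) fun x => ?_
  rw [mem_LK (B := B)]
  refine exists_congr fun y => ?_
  have h1 : ((Polynomial.X + Polynomial.C 2) ^ (K + 2) : Polynomial ℕ).eval x.length =
      lev K x := by simp [lev]
  rw [h1]
  simp only [List.map_cons, List.map_nil, Bool.and_eq_true, decide_eq_true_eq,
    List.cons.injEq, and_true]
  constructor
  · rintro ⟨h2, h3⟩; exact ⟨h2.le, h2, h3⟩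
  · rintro ⟨_, h2, h3⟩; exact ⟨h2, h3⟩

/-- the length of the witnesses searched by the exponential time algorithm -/
def lE (K : ℕ) (u : List Bool) : ℕ := min (lev K (unpair u).1) ((unpair u).2.length.size - 1)

theorem u_lE (K : ℕ) : UPoly (lE K) := by
  have hx : Poly (fun u : List Bool => (unpair u).1) := Poly.fst poly_unpair
  have hp : Poly (fun u : List Bool => (unpair u).2) := Poly.snd poly_unpair
  refine UPoly.of_le (n := fun u => lev K (unpair u).1) ?_ (u_lev K hx) fun u => min_le_left _ _
  refine Poly.min (u_lev K hx).toPoly (Poly.sub ?_ (NPC.Poly.const 1))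
  refine (Poly.length (Poly.natBits (Poly.length hp))).congr fun u => ?_
  rw [Nat.size_eq_bits_len]

theorem two_pow_lE (K : ℕ) (u : List Bool) : 2 ^ (lE K u) ≤ (unpair u).2.length + 1 := by
  have h1 : lE K u ≤ (unpair u).2.length.size - 1 := min_le_right _ _
  refine (Nat.pow_le_pow_right (by norm_num) h1).trans ?_
  rcases Nat.eq_zero_or_pos (unpair u).2.length.size with h0 | h0
  · rw [h0]; simp
  · have h2 : (unpair u).2.length.size - 1 < (unpair u).2.length.size := by omega
    have := Nat.lt_size.1 h2
    omega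

theorem inE2_LK (B : List Bool → Bool) (ω : Oracle) (K : ℕ) : InE2 (orc B ω) (LK ω K) := by
  have hx : Poly (fun u : List Bool => (unpair u).1) := Poly.fst poly_unpair
  have hp : Poly (fun u : List Bool => (unpair u).2) := Poly.snd poly_unpair
  have hQ : Poly (fun u : List Bool => (strsEq (lE K u)).map
      (fun y => true :: code K (unpair u).1 y)) := by
    refine NPC.Poly.map (l := fun u : List Bool => strsEq (lE K u))
      (F := fun u y => true :: code K (unpair u).1 y) ?_ ?_
    · exact p_strsEq (u_lE K) (N := fun u => (unpair u).2.length + 1)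
        (UPoly.add (UPoly.length hp) (UPoly.const 1)) (two_pow_lE K)
    · exact p_codeK K (hx.comp (Poly.fst Poly.id)) (Poly.snd Poly.id)
  have hH : Poly (fun z : List Bool × List Bool => [decide (true ∈ z.2)]) :=
    Poly.cons (Poly.decide_mem (NPC.Poly.const true) (Poly.snd Poly.id)) (NPC.Poly.const [])
  refine ⟨K + 2, _, IsFP.tt hQ hH, fun x => ?_⟩
  rw [mem_LK (B := B)]
  have h1 : lE K (pairBits x (ones (2 ^ ((x.length + 2) ^ (K + 2))))) = lev K x := by
    unfold lE
    rw [unpair_pairBits, length_ones]
    have h2 : (2 ^ ((x.length + 2) ^ (K + 2))).size = (x.length + 2) ^ (K + 2) + 1 := Nat.size_pow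
    rw [h2]
    unfold lev
    simp
  simp only [List.cons.injEq, and_true, decide_eq_true_eq, List.map_map, List.mem_map,
    unpair_pairBits, h1, mem_strsEq, Function.comp_apply]

end Pool.Agent.W2helper61.Mes
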