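import Pool.Agent.W2helper61.Mes.Lim
import Pool.Agent.W2helper61.Mes.Str

/-!
# The null cover of `NP ∩ E`
-/

namespace Pool.Agent.W2helper61.Mes

open MeasureTheory Filter Pool.Agent.NPC Pool.Agent.H628R3.RO
open scoped ENNReal Topology

/-- the strings shorter than `n` -/
def shortF (n : ℕ) : Finset (List Bool) := (Finset.range n).biUnion lenF

theorem mem_shortF {n : ℕ} {x : List Bool} : x ∈ shortF n ↔ x.length < n := by
  simp [shortF, mem_lenF]

theorem card_shortF (n : ℕ) : (shortF n).card ≤ 2 ^ n := by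
  refine Finset.card_biUnion_le.trans ?_
  refine (Finset.sum_le_sum fun j _ => card_lenF j).trans ?_
  have := Nat.geomSum_eq (le_refl 2) n
  rw [this]
  simp

open Classical in
/-- the finite set of the low coins -/
noncomputable def LoF (m : ℕ) : Finset (List Bool) :=
  ((Finset.range (lm m) ×ˢ (Finset.range (lm m) ×ˢ shortF (m / 4))).image
    (fun t => cs t.1 t.2.2 t.2.1)).filter (· ∈ Low m)

theorem mem_LoF {m : ℕ} {s : List Bool} : s ∈ LoF m ↔ s ∈ Low m := by
  classical
  unfold LoF
  rw [Finset.mem_filter]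
  refine ⟨fun h => h.2, fun h => ⟨?_, h⟩⟩
  obtain ⟨K, x, i, rfl, h1, h2⟩ := h
  rw [Finset.mem_image]
  refine ⟨(K, i, x), ?_, rfl⟩
  simp only [Finset.mem_product, Finset.mem_range, mem_shortF]
  refine ⟨?_, h2, ?_⟩
  · refine lt_trans ?_ h1
    calc K < K + 2 := by omega
      _ < 2 ^ (K + 2) := Nat.lt_two_pow_self
      _ ≤ lev K x := Nat.pow_le_pow_left (by omega) _
  · have h3 : (x.length + 2) ^ 2 ≤ lev K x := Nat.pow_le_pow_right (by omega) (by omega)
    have h4 : (x.length + 2) ^ 2 < (m / 4) ^ 2 := lt_of_le_of_lt h3 h1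
    have h5 := lt_of_pow_lt_pow_left₀ 2 (Nat.zero_le _) h4
    omega

/-- the number of the low coins -/
noncomputable def dm (m : ℕ) : ℕ := (LoF m).card

theorem dm_le (m : ℕ) : dm m ≤ lm m * lm m * 2 ^ (m / 4) := by
  classical
  unfold dm LoF
  refine (Finset.card_filter_le _ _).trans (Finset.card_image_le.trans ?_)
  rw [Finset.card_product, Finset.card_product, Finset.card_range, ← mul_assoc]
  exact Nat.mul_le_mul_left _ (card_shortF _)

theorem dm_small (a : ℕ) : ∀ᶠ m in atTop, dm m + a + m ≤ 2 ^ m := by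
  filter_upwards [eventually_ge_atTop (4 * (a + 20))] with m hm
  have h1 := dm_le m
  have hj : a + 20 ≤ m / 4 := by omega
  generalize hjm : m / 4 = j at *
  have h2 : lm m = j ^ 2 := by unfold lm; rw [hjm]
  rw [h2] at h1
  have h3 : ∀ j : ℕ, 16 ≤ j → j ^ 2 ≤ 2 ^ j := by
    intro j hj
    induction j, hj using Nat.le_induction with
    | base => norm_num
    | succ n hn ih =>
      rw [pow_succ 2 n]
      nlinarith
  have h4 := h3 j (by omega)
  have h5 : j ^ 2 * j ^ 2 * 2 ^ j ≤ 2 ^ j * 2 ^ j * 2 ^ j :=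
    Nat.mul_le_mul_right _ (Nat.mul_le_mul h4 h4)
  have h6 : a + m ≤ 2 ^ j * 2 ^ j * 2 ^ j := by
    have h7 : a + m ≤ j ^ 2 * 1 := by
      have : m < 4 * j + 4 := by omega
      nlinarith
    have h8 : 1 ≤ 2 ^ j := Nat.one_le_two_pow
    calc a + m ≤ j ^ 2 * 1 := h7
      _ ≤ 2 ^ j * (2 ^ j * 2 ^ j) := Nat.mul_le_mul h4 (by nlinarith)
      _ = 2 ^ j * 2 ^ j * 2 ^ j := by ring
  have h9 : 2 * (2 ^ j * 2 ^ j * 2 ^ j) ≤ 2 ^ m := by
    rw [← pow_add, ← pow_add, ← pow_succ']
    exact Nat.pow_le_pow_right (by norm_num) (by omega)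
  omega

/-- the seed showing `true` exactly at the coins in `h` -/
noncomputable def ind (h : Finset (List Bool)) : Oracle := fun s => decide (s ∈ h)

/-- the table of a seed -/
noncomputable def tab (m : ℕ) (ω : Oracle) : Finset (List Bool) :=
  (LoF m).filter (fun s => ω s = true)

theorem cmb_tab (m : ℕ) (ω ω' : Oracle) : cmb (Low m) (ind (tab m ω)) ω' = cmb (Low m) ω ω' := by
  funext s
  by_cases h : s ∈ Low m
  · rw [cmb_of_mem h, cmb_of_mem h]
    have h1 : s ∈ LoF m := mem_LoF.2 h
    simp only [ind, tab, Finset.mem_filter, h1, true_and]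
    cases ω s <;> simp
  · rw [cmb_of_notMem h, cmb_of_notMem h]

variable (e : ℕ → Alg × Polynomial ℕ)

/-- the table `h` is consistent with the bits of `w` at the strings of length `m` -/
def Cns (B : List Bool → Bool) (i m : ℕ) (h : Finset (List Bool)) (w : List Bool) : Prop :=
  ∀ p < w.length, (str p).length = m →
    (w.getD p false = true ↔ Prd B (e i).1 (e i).2 m (ind h) (str p))

open Classical in
/-- the number of the consistent tables -/
noncomputable def cnt (B : List Bool → Bool) (i m : ℕ) (w : List Bool) : ℕ :=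
  ((LoF m).powerset.filter (fun h => Cns e B i m h w)).card

/-- the number of positions of strings of length `m` -/
def tm (m n : ℕ) : ℕ := ((Finset.range n).filter (fun p => (str p).length = m)).card

/-- the martingale betting on the consistent tables -/
noncomputable def DD (B : List Bool → Bool) (i m : ℕ) (w : List Bool) : ℝ :=
  2 ^ (tm m w.length) * (cnt e B i m w : ℝ) / 2 ^ (dm m)

theorem tm_succ (m n : ℕ) : tm m (n + 1) = tm m n + (if (str n).length = m then 1 else 0) := by
  unfold tm
  rw [Finset.range_add_one, Finset.filter_insert]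
  split_ifs with h
  · rw [Finset.card_insert_of_notMem (by simp)]
  · rfl

theorem tm_le (m n : ℕ) : tm m n ≤ n := by
  unfold tm
  exact (Finset.card_filter_le _ _).trans (by simp)

theorem cnt_le (B : List Bool → Bool) (i m : ℕ) (w : List Bool) : cnt e B i m w ≤ 2 ^ (dm m) := by
  classical
  unfold cnt
  refine (Finset.card_filter_le _ _).trans ?_
  rw [Finset.card_powerset]
  rfl

theorem DD_nonneg (B : List Bool → Bool) (i m : ℕ) (w : List Bool) : 0 ≤ DD e B i m w := by
  unfold DD; positivity

theorem DD_le (B : List Bool → Bool) (i m : ℕ) (w : List Bool) :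
    DD e B i m w ≤ 2 ^ w.length := by
  unfold DD
  rw [div_le_iff₀ (by positivity)]
  have h1 : (cnt e B i m w : ℝ) ≤ 2 ^ (dm m) := by exact_mod_cast cnt_le e B i m w
  have h2 : (2 : ℝ) ^ (tm m w.length) ≤ 2 ^ w.length :=
    pow_le_pow_right₀ (by norm_num) (tm_le m w.length)
  exact mul_le_mul h2 h1 (by positivity) (by positivity)

theorem cns_append {B : List Bool → Bool} {i m : ℕ} {h : Finset (List Bool)} {w : List Bool}
    {b : Bool} : Cns e B i m h (w ++ [b]) ↔ Cns e B i m h w ∧
      ((str w.length).length = m →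
        (b = true ↔ Prd B (e i).1 (e i).2 m (ind h) (str w.length))) := by
  unfold Cns
  constructor
  · intro H
    refine ⟨fun p hp hm => ?_, fun hm => ?_⟩
    · have h1 := H p (by simp; omega) hm
      rwa [List.getD_append _ _ _ _ hp] at h1
    · have h1 := H w.length (by simp) hm
      rwa [List.getD_append_right _ _ _ _ le_rfl, Nat.sub_self] at h1
  · rintro ⟨H1, H2⟩ p hp hm
    rw [List.length_append, List.length_singleton] at hp
    rcases Nat.lt_or_ge p w.length with h1 | h1
    · rw [List.getD_append _ _ _ _ h1]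
      exact H1 p h1 hm
    · have h2 : p = w.length := by omega
      subst h2
      rw [List.getD_append_right _ _ _ _ le_rfl, Nat.sub_self]
      exact H2 hm

theorem DD_split (B : List Bool → Bool) (i m : ℕ) (w : List Bool) :
    DD e B i m (w ++ [false]) + DD e B i m (w ++ [true]) = 2 * DD e B i m w := by
  classical
  unfold DD
  rw [List.length_append, List.length_append, List.length_singleton, List.length_singleton,
    tm_succ]
  by_cases hm : (str w.length).length = m
  · have h1 : cnt e B i m (w ++ [false]) + cnt e B i m (w ++ [true]) = cnt e B i m w := by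
      unfold cnt
      rw [← Finset.card_union_of_disjoint]
      · congr 1
        ext h
        simp only [Finset.mem_union, Finset.mem_filter, cns_append]
        constructor
        · rintro (⟨h1, h2, _⟩ | ⟨h1, h2, _⟩) <;> exact ⟨h1, h2⟩
        · rintro ⟨h1, h2⟩
          by_cases hp : Prd B (e i).1 (e i).2 m (ind h) (str w.length)
          · exact Or.inr ⟨h1, h2, fun _ => by simp [hp]⟩
          · exact Or.inl ⟨h1, h2, fun _ => by simp [hp]⟩
      · rw [Finset.disjoint_left]
        intro h h1 h2
        simp only [Finset.mem_filter, cns_append] at h1 h2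
        have h3 := h1.2.2 hm
        have h4 := h2.2.2 hm
        rw [← h3] at h4
        simp at h4
    rw [if_pos hm, ← h1]
    push_cast
    rw [pow_succ]
    ring
  · have h1 : ∀ b, cnt e B i m (w ++ [b]) = cnt e B i m w := by
      intro b
      unfold cnt
      congr 1
      ext h
      simp only [Finset.mem_filter, cns_append]
      constructor
      · rintro ⟨h1, h2, _⟩; exact ⟨h1, h2⟩
      · rintro ⟨h1, h2⟩; exact ⟨h1, h2, fun h3 => (hm h3).elim⟩
    rw [if_neg hm, h1, h1]
    ring

theorem DD_nil (B : List Bool → Bool) (i m : ℕ) : DD e B i m [] = 1 := by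
  classical
  have h1 : cnt e B i m [] = 2 ^ (dm m) := by
    unfold cnt
    rw [Finset.filter_true_of_mem, Finset.card_powerset]
    · rfl
    · intro h _ p hp
      simp at hp
  unfold DD
  rw [h1]
  simp [tm]

theorem tm_full (m : ℕ) : tm m (2 ^ (m + 1) - 1) = 2 ^ m := by
  unfold tm
  have h1 : (Finset.range (2 ^ (m + 1) - 1)).filter (fun p => (str p).length = m) =
      Finset.Ico (2 ^ m - 1) (2 ^ (m + 1) - 1) := by
    ext p
    simp only [Finset.mem_filter, Finset.mem_range, Finset.mem_Ico, length_str_eq]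
    omega
  rw [h1, Nat.card_Ico]
  have : 2 ^ (m + 1) = 2 * 2 ^ m := by rw [pow_succ']
  have : 1 ≤ 2 ^ m := Nat.one_le_two_pow
  omega

theorem DD_good {B : List Bool → Bool} {i m : ℕ} {ω : Oracle}
    (h : Good B (e i).1 (e i).2 m ω) :
    (2 : ℝ) ^ (2 ^ m) / 2 ^ (dm m) ≤
      DD e B i m (pre {x | Acc (e i).1 (e i).2 (orc B ω) x} (2 ^ (m + 1) - 1)) := by
  classical
  unfold DD
  rw [length_pre, tm_full]
  have h1 : 1 ≤ cnt e B i m (pre {x | Acc (e i).1 (e i).2 (orc B ω) x} (2 ^ (m + 1) - 1)) := by
    unfold cnt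
    rw [Nat.one_le_iff_ne_zero, ← Nat.pos_iff_ne_zero, Finset.card_pos]
    refine ⟨tab m ω, ?_⟩
    rw [Finset.mem_filter, Finset.mem_powerset]
    refine ⟨Finset.filter_subset _ _, fun p hp hm => ?_⟩
    rw [length_pre] at hp
    rw [pre_getD _ hp]
    unfold Prd
    simp only [cmb_tab]
    exact h (str p) hm
  have h2 : (1 : ℝ) ≤ (cnt e B i m (pre {x | Acc (e i).1 (e i).2 (orc B ω) x}
      (2 ^ (m + 1) - 1)) : ℝ) := by exact_mod_cast h1
  rw [div_le_div_iff_of_pos_right (by positivity)]
  have h3 : (0 : ℝ) < 2 ^ (2 ^ m) := by positivity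
  nlinarith

end Pool.Agent.W2helper61.Mes
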