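import Pool.Agent.H628R3.RO.Defs
import Pool.Agent.NPC.Num

/-!
# Resource-bounded measure relative to an oracle

Lutz's resource-bounded measure in `E` and in `E₂`, for complexity classes relative to an oracle.
Oracles, polynomial-time oracle algorithms (`IsFP`) and `NP` relative to an oracle (`IsNP`) are
those of `Pool.Agent.H628R3.RO.Defs`. The classes with larger time bounds are given by padding.
-/

namespace Pool.Agent.W2helper61.Mes

open Pool.Agent.NPC Pool.Agent.H628R3.RO

/-- The string of `n` ones. -/
def ones (n : ℕ) : List Bool := List.replicate n true

/-- The standard (length-lexicographic) enumeration of the bit strings: `str n` consists of the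
binary digits of `n + 1`, most significant digit first, without the leading digit `1`. -/
def str (n : ℕ) : List Bool := (n + 1).bits.reverse.tail

open Classical in
/-- The first `n` bits of the characteristic sequence of the language `L`. -/
noncomputable def pre (L : Set (List Bool)) (n : ℕ) : List Bool :=
  (List.range n).map (fun i => decide (str i ∈ L))

/-- Density functions. -/
structure IsDensity (d : List Bool → ℝ) : Prop where
  nonneg : ∀ w, 0 ≤ d w
  split : ∀ w, (d (w ++ [false]) + d (w ++ [true])) / 2 ≤ d w

/-- The map `d` is a null cover of the class `X` of languages: for every `k`, `d k` is a density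
function with global value at most `2 ^ (-k)`, and it takes a value at least `1` on some prefix
of the characteristic sequence of every language in `X`. -/
structure IsNullCover (d : ℕ → List Bool → ℝ) (X : Set (Set (List Bool))) : Prop where
  dens : ∀ k, IsDensity (d k)
  glob : ∀ k, d k [] ≤ (1 / 2) ^ k
  cov : ∀ k, ∀ L ∈ X, ∃ n, 1 ≤ d k (pre L n)

/-- The string `u` names the dyadic rational number `q`: it consists of a sign bit and the pair of
`a` and `b`, where the numerator has the binary digits `a` (least significant first) and the
denominator is `2 ^ |b|`. -/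
def Names (u : List Bool) (q : ℝ) : Prop :=
  ∃ (s : Bool) (a b : List Bool), u = s :: pairBits a b ∧
    q = (if s then -1 else 1) * ((valB a : ℝ) / 2 ^ b.length)

/-- `F` computes approximations of `d`: on input `(1^k, 1^r, w)` the output names a dyadic
rational at distance at most `2 ^ (-r)` from `d k w`. -/
def Approx (F : List Bool → List Bool) (d : ℕ → List Bool → ℝ) : Prop :=
  ∀ (k r : ℕ) (w : List Bool), ∃ q : ℝ, Names (F (pairBits (ones k) (pairBits (ones r) w))) q ∧
    |q - d k w| ≤ (1 / 2) ^ r

/-- The class `p₂` relative to `A`: functions computable in time `n ^ ((log n) ^ O(1))`, that is,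
in polynomial time when the input `u` is padded by `2 ^ ((log |u|) ^ c)` ones, for some `c`
(`Nat.size n` is the number of binary digits of `n`). The class `p` relative to `A` is
`IsFP A`. -/
def IsFP2 (A : Oracle) (F : List Bool → List Bool) : Prop :=
  ∃ (c : ℕ) (F' : List Bool → List Bool), IsFP A F' ∧
    ∀ u, F u = F' (pairBits u (ones (2 ^ (u.length.size ^ c))))

/-- The class `E` relative to `A`: languages decidable in time `2 ^ (O(n))`, that is, in
polynomial time when the input `x` is padded by `2 ^ (c * (|x| + 1))` ones, for some `c`. -/
def InE (A : Oracle) (L : Set (List Bool)) : Prop :=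
  ∃ (c : ℕ) (F : List Bool → List Bool), IsFP A F ∧
    ∀ x, x ∈ L ↔ F (pairBits x (ones (2 ^ (c * (x.length + 1))))) = [true]

/-- The class `E₂` relative to `A`: languages decidable in time `2 ^ (n ^ O(1))`, that is, in
polynomial time when the input `x` is padded by `2 ^ ((|x| + 2) ^ c)` ones, for some `c`. -/
def InE2 (A : Oracle) (L : Set (List Bool)) : Prop :=
  ∃ (c : ℕ) (F : List Bool → List Bool), IsFP A F ∧
    ∀ x, x ∈ L ↔ F (pairBits x (ones (2 ^ ((x.length + 2) ^ c)))) = [true]

/-- The class `X` has a null cover which is `p`-computable relative to `A`. -/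
def NullP (A : Oracle) (X : Set (Set (List Bool))) : Prop :=
  ∃ (d : ℕ → List Bool → ℝ) (F : List Bool → List Bool),
    IsNullCover d X ∧ IsFP A F ∧ Approx F d

/-- The class `X` has a null cover which is `p₂`-computable relative to `A`. -/
def NullP2 (A : Oracle) (X : Set (Set (List Bool))) : Prop :=
  ∃ (d : ℕ → List Bool → ℝ) (F : List Bool → List Bool),
    IsNullCover d X ∧ IsFP2 A F ∧ Approx F d

end Pool.Agent.W2helper61.Mes
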