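import Pool.Agent.W2helper61.Mes.Surp

/-!
# Predicting languages in `NP ∩ E` from the low part of the seed
-/

namespace Pool.Agent.W2helper61.Mes

open MeasureTheory Filter Pool.Agent.NPC Pool.Agent.H628R3.RO
open scoped ENNReal Topology

/-- the bound for low levels -/
def lm (m : ℕ) : ℕ := (m / 4) ^ 2

/-- the low coins -/
def Low (m : ℕ) : Set (List Bool) :=
  {s | ∃ K x i, s = cs K x i ∧ lev K x < lm m ∧ i < lm m}

theorem cs_mem_low {m K i : ℕ} {x : List Bool} : cs K x i ∈ Low m ↔ lev K x < lm m ∧ i < lm m := by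
  constructor
  · rintro ⟨K', x', i', h, h'⟩
    obtain ⟨rfl, rfl, rfl⟩ := cs_inj h
    exact h'
  · intro h
    exact ⟨K, x, i, rfl, h⟩

theorem blk_low (m : ℕ) : Blk (Low m) (lm m) := by
  intro K x
  rcases Nat.lt_or_ge (lev K x) (lm m) with h | h
  · exact Or.inl fun i hi => cs_mem_low.2 ⟨h, by omega⟩
  · exact Or.inr ⟨fun i hi => by have := (cs_mem_low.1 hi).1; omega, h⟩

theorem orc_cmb_low (B : List Bool → Bool) {m n : ℕ} (h : (n + 2) ^ (n + 2) < lm m)
    (ω ω' : Oracle) {v : List Bool} (hv : v.length ≤ n) :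
    orc B (cmb (Low m) ω ω') v = orc B ω v := by
  rcases v with _ | ⟨b, v⟩
  · rfl
  cases b with
  | false => rfl
  | true =>
    change posG _ _ = posG _ _
    refine posG_congr fun K x y hc i hi => ?_
    have h1 : (code K x y).length < n := by rw [← hc]; simpa using hv
    rw [length_code] at h1
    have h2 : lev K x ≤ (n + 2) ^ (n + 2) := by
      unfold lev
      calc (x.length + 2) ^ (K + 2) ≤ (n + 2) ^ (K + 2) := Nat.pow_le_pow_left (by omega) _
        _ ≤ (n + 2) ^ (n + 2) := Nat.pow_le_pow_right (by omega) (by omega)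
    rw [cmb_of_mem (cs_mem_low.2 ⟨by omega, by omega⟩)]

theorem tendsto_lm : Tendsto lm atTop atTop := by
  refine tendsto_atTop.2 fun b => eventually_atTop.2 ⟨4 * (b + 1), fun m hm => ?_⟩
  have h1 : b + 1 ≤ m / 4 := by omega
  unfold lm
  calc b ≤ (b + 1) * 1 := by omega
    _ ≤ (m / 4) * (m / 4) := Nat.mul_le_mul h1 (by omega)
    _ = (m / 4) ^ 2 := by ring

theorem dens_bad {B : List Bool → Bool} {P : List Bool → Oracle → Prop}
    (hP : ∀ x, ∃ N, ∀ A A' : Oracle, (∀ v : List Bool, v.length ≤ N → A v = A' v) →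
      (P x A ↔ P x A')) {δ : ℝ≥0∞} (hδ : 0 < δ) :
    ∀ᶠ m in atTop, randomOracle {ω | (∀ x, P x (orc B ω)) ∧
      (1 / 4 : ℝ≥0∞) ≤ randomOracle {ω' | ¬ ∀ x, P x (orc B (cmb (Low m) ω ω'))}} ≤ δ := by
  classical
  choose N hN using hP
  have hfin : ∀ n : ℕ, ∃ b, ∀ x : List Bool, x.length ≤ n → N x ≤ b := by
    intro n
    have h1 : ((finite_length_le n).toFinset.image N).Nonempty ∨ True := Or.inr trivial
    refine ⟨(finite_length_le n).toFinset.sup N, fun x hx => ?_⟩
    exact Finset.le_sup (f := N) ((finite_length_le n).mem_toFinset.2 hx)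
  choose b hb using hfin
  let D : ℕ → Set Oracle := fun n => {ω | ∀ x : List Bool, x.length ≤ n → P x (orc B ω)}
  let E : Set Oracle := {ω | ∀ x, P x (orc B ω)}
  have hD : ∀ n, MeasurableSet (D n) := by
    intro n
    refine Dep.measurableSet (N := bdc (b n)) fun ω ω' h => ?_
    refine propext (forall₂_congr fun x hx => ?_)
    exact hN x _ _ fun v hv => orc_dep B h (hv.trans (hb n x hx))
  have hanti : Antitone D := fun n n' h ω hω x hx => hω x (hx.trans h)
  have hE : E = ⋂ n, D n := by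
    ext ω
    simp only [E, D, Set.mem_iInter, Set.mem_ofPred_eq]
    exact ⟨fun h n x _ => h x, fun h x => h x.length x le_rfl⟩
  have hEm : MeasurableSet E := by rw [hE]; exact MeasurableSet.iInter hD
  have hlim : Tendsto (fun n => randomOracle (D n \ E)) atTop (𝓝 0) := by
    have h1 : Tendsto (fun n => randomOracle (D n \ E)) atTop
        (𝓝 (randomOracle (⋂ n, (D n \ E)))) := by
      refine tendsto_measure_iInter_atTop (fun n => ((hD n).diff hEm).nullMeasurableSet)
        (fun n n' h => Set.sdiff_subset_sdiff_left (hanti h)) ⟨0, measure_ne_top _ _⟩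
    have h2 : ⋂ n, (D n \ E) = ∅ := by
      ext ω
      simp only [Set.mem_iInter, Set.mem_sdiff, Set.mem_empty_iff_false, iff_false]
      intro h
      apply (h 0).2
      rw [hE]
      exact Set.mem_iInter.2 fun n => (h n).1
    rwa [h2, measure_empty] at h1
  have hδ4 : (0 : ℝ≥0∞) < δ / 4 := ENNReal.div_pos hδ.ne' (by norm_num)
  obtain ⟨n, hn⟩ := ((tendsto_order.1 hlim).2 _ hδ4).exists
  filter_upwards [tendsto_lm.eventually_gt_atTop ((b n + 2) ^ (b n + 2))] with m hm
  have hT : MeasurableSet (D n \ E) := (hD n).diff hEm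
  have hsub : {ω | (∀ x, P x (orc B ω)) ∧
      (1 / 4 : ℝ≥0∞) ≤ randomOracle {ω' | ¬ ∀ x, P x (orc B (cmb (Low m) ω ω'))}} ⊆
      {ω | (1 / 4 : ℝ≥0∞) ≤ randomOracle {ω' | cmb (Low m) ω ω' ∈ D n \ E}} := by
    rintro ω ⟨h1, h2⟩
    refine h2.trans (measure_mono fun ω' hω' => ?_)
    refine ⟨fun x hx => ?_, hω'⟩
    refine (hN x _ _ fun v hv => ?_).2 (h1 x)
    exact orc_cmb_low B hm ω ω' (hv.trans (hb n x hx))
  refine (measure_mono hsub).trans ?_
  have h3 := mul_meas_ge_le_lintegral (μ := randomOracle) (measurable_fiber (Low m) hT)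
    (1 / 4 : ℝ≥0∞)
  rw [lintegral_fiber (Low m) hT] at h3
  have h4 : (1 / 4 : ℝ≥0∞) * randomOracle {ω | (1 / 4 : ℝ≥0∞) ≤
      randomOracle {ω' | cmb (Low m) ω ω' ∈ D n \ E}} ≤ δ / 4 := h3.trans hn.le
  have h5 : (4 : ℝ≥0∞) * ((1 / 4 : ℝ≥0∞) * randomOracle {ω | (1 / 4 : ℝ≥0∞) ≤
      randomOracle {ω' | cmb (Low m) ω ω' ∈ D n \ E}}) ≤ 4 * (δ / 4) := by gcongr
  rw [← mul_assoc, one_div, ENNReal.mul_inv_cancel (by norm_num) (by norm_num), one_mul,
    ENNReal.mul_div_cancel (by norm_num) (by norm_num)] at h5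
  rw [one_div]
  exact h5

end Pool.Agent.W2helper61.Mes
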