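import Pool.Agent.W2helper61.Mes.Dens

/-!
# Predicting languages in `NP ∩ E` from the low part of the seed (continued)
-/

namespace Pool.Agent.W2helper61.Mes

open MeasureTheory Filter Pool.Agent.NPC Pool.Agent.H628R3.RO
open scoped ENNReal Topology

/-- The nondeterministic machine with verifier `V` and bound `p` accepts `x`. -/
def Acc (V : Alg) (p : Polynomial ℕ) (A : Oracle) (x : List Bool) : Prop :=
  ∃ w : List Bool, w.length ≤ p.eval x.length ∧ V.out A (pairBits x w) = some [true]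

theorem acc_local (V : Alg) (p : Polynomial ℕ) : ∃ q : Polynomial ℕ, ∀ (A A' : Oracle)
    (x : List Bool), (∀ v : List Bool, v.length ≤ q.eval x.length → A v = A' v) →
      (Acc V p A x ↔ Acc V p A' x) := by
  obtain ⟨qb, hqb⟩ := out_congr' V
  refine ⟨qb.comp (Polynomial.C 2 * Polynomial.X + Polynomial.C 1 + p), fun A A' x h => ?_⟩
  refine exists_congr fun w => and_congr_right fun hw => ?_
  rw [hqb A A' (pairBits x w) fun v hv => h v (hv.trans ?_)]
  rw [Polynomial.eval_comp]
  apply eval_mono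
  rw [length_pairBits]
  simp only [Polynomial.eval_add, Polynomial.eval_mul, Polynomial.eval_C, Polynomial.eval_X]
  omega

/-- the prediction from the low part of the seed `ω` -/
def Prd (B : List Bool → Bool) (V : Alg) (p : Polynomial ℕ) (m : ℕ) (ω : Oracle)
    (x : List Bool) : Prop :=
  (1 / 2 : ℝ≥0∞) < randomOracle {ω' | Acc V p (orc B (cmb (Low m) ω ω')) x}

/-- the padded input for exponential time `2^(c (n+1))` -/
def pd (c : ℕ) (x : List Bool) : List Bool := pairBits x (ones (2 ^ (c * (x.length + 1))))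

/-- the strings of length `m` -/
def lenF (m : ℕ) : Finset (List Bool) := Finset.univ.image (fun v : Fin m → Bool => List.ofFn v)

theorem mem_lenF {m : ℕ} {x : List Bool} : x ∈ lenF m ↔ x.length = m := by
  unfold lenF
  rw [Finset.mem_image]
  constructor
  · rintro ⟨v, _, rfl⟩; simp
  · rintro rfl
    exact ⟨fun i => x[i], Finset.mem_univ _, by simp⟩

theorem card_lenF (m : ℕ) : (lenF m).card ≤ 2 ^ m := by
  refine Finset.card_image_le.trans ?_
  simp

theorem cmb_cmb (S : Set (List Bool)) (ω ω' ω'' : Oracle) :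
    cmb S (cmb S ω ω') ω'' = cmb S ω ω'' := by
  funext s
  by_cases h : s ∈ S
  · rw [cmb_of_mem h, cmb_of_mem h, cmb_of_mem h]
  · rw [cmb_of_notMem h, cmb_of_notMem h]

/-- the error bound for one input of length `m` -/
noncomputable def er (M : Alg) (c m : ℕ) : ℝ≥0∞ :=
  ((M.p.eval (2 * m + 1 + 2 ^ (c * (m + 1))) : ℕ) : ℝ≥0∞) * (2⁻¹ : ℝ≥0∞) ^ (lm m)

theorem length_pd (c : ℕ) (x : List Bool) :
    (pd c x).length = 2 * x.length + 1 + 2 ^ (c * (x.length + 1)) := by
  unfold pd
  rw [length_pairBits, length_ones]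

theorem run_low (B : List Bool → Bool) (M : Alg) (c m : ℕ) (ω : Oracle) {x : List Bool}
    (hx : x.length = m) :
    randomOracle {ω' | M.out (orc B (cmb (Low m) ω ω')) (pd c x) ≠
      M.out (orc B (cmb (Low m) ω zer)) (pd c x)} ≤ er M c m := by
  have h := measure_run (blk_low m) B M ω (pd c x)
  rw [length_pd, hx] at h
  exact h

/-- the machine is surprised by a witness which is not low -/
def Sp (B : List Bool → Bool) (M : Alg) (c m : ℕ) : Set Oracle :=
  {ω | ∃ x : List Bool, x.length = m ∧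
    M.out (orc B ω) (pd c x) ≠ M.out (orc B (cmb (Low m) ω zer)) (pd c x)}

theorem measure_Sp (B : List Bool → Bool) (M : Alg) (c m : ℕ) :
    randomOracle (Sp B M c m) ≤ (2 : ℝ≥0∞) ^ m * er M c m := by
  have hmeas : MeasurableSet (Sp B M c m) := by
    have h1 : Sp B M c m = ⋃ x ∈ lenF m, {ω | M.out (orc B ω) (pd c x) ≠
        M.out (orc B (cmb (Low m) ω zer)) (pd c x)} := by
      ext ω
      simp only [Sp, Set.mem_iUnion, mem_lenF, Set.mem_ofPred_eq, exists_prop]
    rw [h1]
    refine Finset.measurableSet_biUnion _ fun x _ => ?_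
    obtain ⟨N₁, h1⟩ := dep_out' M B (pd c x)
    obtain ⟨N₂, h2⟩ := dep_out M B (Low m) (pd c x)
    refine Dep.measurableSet (N := max N₁ N₂) fun ω ω' h => ?_
    have e1 := h1.mono (le_max_left N₁ N₂) ω ω' h
    have e2 := h2.mono (le_max_right N₁ N₂) ω ω' h
    simp only at e1 e2
    rw [e1, e2]
  refine measure_le_of_fiber (Low m) hmeas fun ω => ?_
  have hsub : {ω' | cmb (Low m) ω ω' ∈ Sp B M c m} ⊆
      ⋃ x ∈ lenF m, {ω' | M.out (orc B (cmb (Low m) ω ω')) (pd c x) ≠
        M.out (orc B (cmb (Low m) ω zer)) (pd c x)} := by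
    rintro ω' ⟨x, hx, hne⟩
    rw [cmb_cmb] at hne
    exact Set.mem_biUnion (mem_lenF.2 hx) hne
  refine (measure_mono hsub).trans ((measure_biUnion_finset_le _ _).trans ?_)
  refine (Finset.sum_le_sum fun x hx => run_low B M c m ω (mem_lenF.1 hx)).trans ?_
  rw [Finset.sum_const, nsmul_eq_mul]
  have h4 : (((lenF m).card : ℕ) : ℝ≥0∞) ≤ (2 : ℝ≥0∞) ^ m := by exact_mod_cast card_lenF m
  exact mul_le_mul_left h4 _

/-- the event that the two machines accept the same language -/
def Ev (B : List Bool → Bool) (V : Alg) (p : Polynomial ℕ) (M : Alg) (c : ℕ) : Set Oracle :=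
  {ω | ∀ x, (Acc V p (orc B ω) x ↔ M.out (orc B ω) (pd c x) = some [true])}

/-- all strings of length `m` are predicted -/
def Good (B : List Bool → Bool) (V : Alg) (p : Polynomial ℕ) (m : ℕ) (ω : Oracle) : Prop :=
  ∀ x : List Bool, x.length = m → (Acc V p (orc B ω) x ↔ Prd B V p m ω x)

theorem good_of {B : List Bool → Bool} {V : Alg} {p : Polynomial ℕ} {M : Alg} {c m : ℕ}
    (hm : er M c m < 1 / 4) {ω : Oracle} (h1 : ω ∈ Ev B V p M c)
    (h2 : ¬ (1 / 4 : ℝ≥0∞) ≤ randomOracle {ω' | ¬ (cmb (Low m) ω ω') ∈ Ev B V p M c})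
    (h3 : ω ∉ Sp B M c m) : Good B V p m ω := by
  intro x hx
  have h4 : M.out (orc B ω) (pd c x) = M.out (orc B (cmb (Low m) ω zer)) (pd c x) := by
    by_contra hne
    exact h3 ⟨x, hx, hne⟩
  have h5 := h1 x
  rw [h4] at h5
  rw [h5]
  let b : Prop := M.out (orc B (cmb (Low m) ω zer)) (pd c x) = some [true]
  let Bd : Set Oracle := {ω' | ¬ (cmb (Low m) ω ω') ∈ Ev B V p M c} ∪
    {ω' | M.out (orc B (cmb (Low m) ω ω')) (pd c x) ≠
      M.out (orc B (cmb (Low m) ω zer)) (pd c x)}
  have hBd : randomOracle Bd < 1 / 2 := by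
    refine (measure_union_le _ _).trans_lt ?_
    have h6 : (1 / 2 : ℝ≥0∞) = 1 / 4 + 1 / 4 := by
      rw [ENNReal.div_add_div_same, ← ENNReal.toReal_eq_toReal_iff' (by simp) (by simp [ENNReal.div_eq_top])]
      norm_num
    rw [h6]
    exact ENNReal.add_lt_add (not_le.1 h2) ((run_low B M c m ω hx).trans_lt hm)
  have hnot : ∀ ω', ω' ∉ Bd → (Acc V p (orc B (cmb (Low m) ω ω')) x ↔ b) := by
    intro ω' hω'
    simp only [Bd, Set.mem_union, Set.mem_ofPred_eq, not_or, not_not] at hω'
    have h6 := hω'.1 x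
    rw [hω'.2] at h6
    exact h6
  change b ↔ (1 / 2 : ℝ≥0∞) < _
  constructor
  · intro hb
    by_contra hcon
    have h7 : Bdᶜ ⊆ {ω' | Acc V p (orc B (cmb (Low m) ω ω')) x} := fun ω' hω' =>
      (hnot ω' hω').2 hb
    have h8 : (1 : ℝ≥0∞) ≤ randomOracle Bd + randomOracle Bdᶜ := by
      rw [← measure_univ (μ := randomOracle), ← Set.union_compl_self Bd]
      exact measure_union_le _ _
    have h9 : randomOracle Bd + randomOracle Bdᶜ < 1 / 2 + 1 / 2 :=
      ENNReal.add_lt_add_of_lt_of_le (measure_ne_top _ _) hBd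
        ((measure_mono h7).trans (not_lt.1 hcon))
    rw [ENNReal.add_halves] at h9
    exact absurd h8 (not_le.2 h9)
  · intro h6
    by_contra hb
    have h7 : {ω' | Acc V p (orc B (cmb (Low m) ω ω')) x} ⊆ Bd := by
      intro ω' hω'
      by_contra hcon
      exact hb ((hnot ω' hcon).1 hω')
    exact absurd ((measure_mono h7).trans_lt hBd) (not_lt.2 h6.le)

end Pool.Agent.W2helper61.Mes
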