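import Pool.Agent.W2helper61.Mes.Base
import Pool.Agent.H628R3.RO.D1

/-!
# Hidden witnesses are not found; measurability
-/

namespace Pool.Agent.W2helper61.Mes

open MeasureTheory Pool.Agent.NPC Pool.Agent.H628R3.RO
open scoped ENNReal

/-- the seed without any coin showing `true` -/
def zer : Oracle := fun _ => false

/-- Of every pair either all the relevant coins are kept, or none; in the latter case the
level is at least `ℓ`. -/
def Blk (S : Set (List Bool)) (ℓ : ℕ) : Prop :=
  ∀ (K : ℕ) (x : List Bool), (∀ i ≤ lev K x, cs K x i ∈ S) ∨ ((∀ i, cs K x i ∉ S) ∧ ℓ ≤ lev K x)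

theorem measure_surprise {S : Set (List Bool)} {ℓ : ℕ} (hS : Blk S ℓ) (B : List Bool → Bool)
    (ω₀ : Oracle) (q : List Bool) :
    randomOracle {ω | orc B (cmb S ω₀ ω) q ≠ orc B (cmb S ω₀ zer) q} ≤ (2⁻¹ : ℝ≥0∞) ^ ℓ := by
  have hempty : ∀ h : ∀ ω, orc B (cmb S ω₀ ω) q = orc B (cmb S ω₀ zer) q,
      randomOracle {ω | orc B (cmb S ω₀ ω) q ≠ orc B (cmb S ω₀ zer) q} ≤ (2⁻¹ : ℝ≥0∞) ^ ℓ := by
    intro h
    have : {ω | orc B (cmb S ω₀ ω) q ≠ orc B (cmb S ω₀ zer) q} = ∅ := by
      ext ω; simp [h ω]
    rw [this]; simp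
  rcases q with _ | ⟨b, v⟩
  · exact hempty fun ω => rfl
  cases b with
  | false => exact hempty fun ω => rfl
  | true =>
    by_cases hv : ∃ K x y, v = code K x y
    · obtain ⟨K, x, y, rfl⟩ := hv
      rcases hS K x with hk | ⟨hk, hl⟩
      · refine hempty fun ω => ?_
        change posG _ _ = posG _ _
        refine posG_congr fun K' x' y' h i hi => ?_
        obtain ⟨rfl, rfl, rfl⟩ := code_inj h
        rw [cmb_of_mem (hk i hi), cmb_of_mem (hk i hi)]
      · have hsub : {ω | orc B (cmb S ω₀ ω) (true :: code K x y) ≠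
            orc B (cmb S ω₀ zer) (true :: code K x y)} ⊆
            {ω | ∀ i < lev K x, ω (cs K x (i + 1)) = y[i]?.getD false} := by
          intro ω hω
          have h1 : orc B (cmb S ω₀ zer) (true :: code K x y) = false := by
            change posG _ _ = false
            rw [← Bool.not_eq_true, posG_code, cmb_of_notMem (hk 0)]
            simp [zer]
          have h2 : orc B (cmb S ω₀ ω) (true :: code K x y) = true := by
            have h3 : orc B (cmb S ω₀ ω) (true :: code K x y) ≠
              orc B (cmb S ω₀ zer) (true :: code K x y) := hω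
            rw [h1] at h3
            simpa using h3
          change posG _ _ = true at h2
          rw [posG_code] at h2
          intro i hi
          have h4 := h2.2
          have h5 : i < (wit (cmb S ω₀ ω) K x).length := by rw [length_wit]; exact hi
          rw [h4, List.getElem?_eq_getElem h5]
          simp only [wit, List.getElem_map, List.getElem_range, Option.getD_some]
          rw [cmb_of_notMem (hk _)]
        refine (measure_mono hsub).trans ?_
        rw [measure_cyl (lev K x) (fun i => cs K x (i + 1)) (fun i j h => by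
          have := (cs_inj h).2.2; omega) (fun i => y[i]?.getD false)]
        exact pow_le_pow_right_of_le_one' (by simp) hl
    · refine hempty fun ω => ?_
      change posG _ _ = posG _ _
      exact posG_congr fun K x y h => (hv ⟨K, x, y, h⟩).elim

theorem measure_run {S : Set (List Bool)} {ℓ : ℕ} (hS : Blk S ℓ) (B : List Bool → Bool)
    (M : Alg) (ω₀ : Oracle) (u : List Bool) :
    randomOracle {ω | M.out (orc B (cmb S ω₀ ω)) u ≠ M.out (orc B (cmb S ω₀ zer)) u} ≤
      ((M.p.eval u.length : ℕ) : ℝ≥0∞) * (2⁻¹ : ℝ≥0∞) ^ ℓ := by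
  obtain ⟨qb, hqb⟩ := M.out_local
  obtain ⟨Q, h1, _, h3⟩ := hqb (orc B (cmb S ω₀ zer)) u
  have hsub : {ω | M.out (orc B (cmb S ω₀ ω)) u ≠ M.out (orc B (cmb S ω₀ zer)) u} ⊆
      ⋃ q ∈ Q, {ω | orc B (cmb S ω₀ ω) q ≠ orc B (cmb S ω₀ zer) q} := by
    intro ω hω
    by_contra hcon
    apply hω
    apply h3
    intro q hq
    by_contra hne
    exact hcon (Set.mem_biUnion hq hne)
  refine (measure_mono hsub).trans ((measure_biUnion_finset_le Q _).trans ?_)
  refine (Finset.sum_le_sum fun q _ => measure_surprise hS B ω₀ q).trans ?_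
  rw [Finset.sum_const, nsmul_eq_mul]
  have h4 : (Q.card : ℝ≥0∞) ≤ ((M.p.eval u.length : ℕ) : ℝ≥0∞) := by exact_mod_cast h1
  exact mul_le_mul_left h4 _

/-- the value depends only on the coins with names of length at most `N` -/
def Dep {α : Type*} (N : ℕ) (f : Oracle → α) : Prop :=
  ∀ ω ω' : Oracle, (∀ s : List Bool, s.length ≤ N → ω s = ω' s) → f ω = f ω'

theorem Dep.measurable {α : Type*} [MeasurableSpace α] {N : ℕ} {f : Oracle → α} (h : Dep N f) :
    Measurable f := by
  classical
  have hfin : Finite {s : List Bool | s.length ≤ N} := finite_length_le N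
  let r : Oracle → ({s : List Bool | s.length ≤ N} → Bool) := fun ω s => ω s
  have hr : Measurable r := measurable_pi_lambda _ fun x => measurable_pi_apply _
  let e : ({s : List Bool | s.length ≤ N} → Bool) → Oracle :=
    fun g s => if hs : s.length ≤ N then g ⟨s, hs⟩ else false
  have hf : f = (fun g => f (e g)) ∘ r := by
    funext ω
    refine h ω _ fun s hs => ?_
    simp [e, r, hs]
  rw [hf]
  have : Measurable (fun g => f (e g)) := measurable_of_finite _
  exact this.comp hr

theorem Dep.measurableSet {N : ℕ} {f : Oracle → Prop} (h : Dep N f) :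
    MeasurableSet {ω | f ω} := by
  have := h.measurable (MeasurableSet.of_discrete (s := {True}))
  convert this using 1
  ext ω
  simp

theorem Dep.mono {α : Type*} {N N' : ℕ} {f : Oracle → α} (h : Dep N f) (hN : N ≤ N') :
    Dep N' f := fun ω ω' hω => h ω ω' fun s hs => hω s (hs.trans hN)

theorem length_cs (K : ℕ) (x : List Bool) (i : ℕ) : (cs K x i).length = K + i + x.length + 2 := by
  simp only [cs, pos, List.length_append, List.length_replicate, List.length_cons]
  omega

/-- bound for the names of the coins relevant for the oracle up to length `n` -/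
def bdc (n : ℕ) : ℕ := n + (n + 2) ^ (n + 2) + n + 2

theorem orc_dep (B : List Bool → Bool) {n : ℕ} {ω ω' : Oracle}
    (h : ∀ s : List Bool, s.length ≤ bdc n → ω s = ω' s) {v : List Bool} (hv : v.length ≤ n) :
    orc B ω v = orc B ω' v := by
  rcases v with _ | ⟨b, v⟩
  · rfl
  cases b with
  | false => rfl
  | true =>
    change posG _ _ = posG _ _
    refine posG_congr fun K x y hc i hi => h _ ?_
    rw [length_cs]
    have h1 : (code K x y).length < n := by rw [← hc]; simpa using hv
    rw [length_code] at h1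
    have h2 : i ≤ (n + 2) ^ (n + 2) := by
      refine hi.trans ?_
      unfold lev
      calc (x.length + 2) ^ (K + 2) ≤ (n + 2) ^ (K + 2) := Nat.pow_le_pow_left (by omega) _
        _ ≤ (n + 2) ^ (n + 2) := Nat.pow_le_pow_right (by omega) (by omega)
    unfold bdc
    omega

theorem out_congr' (M : Alg) : ∃ qb : Polynomial ℕ, ∀ (A A' : Oracle) (u : List Bool),
    (∀ v : List Bool, v.length ≤ qb.eval u.length → A v = A' v) → M.out A u = M.out A' u := by
  obtain ⟨qb, hqb⟩ := M.out_local
  refine ⟨qb, fun A A' u h => ?_⟩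
  obtain ⟨Q, _, h2, h3⟩ := hqb A' u
  exact h3 A fun q hq => h q (h2 q hq)

theorem dep_out (M : Alg) (B : List Bool → Bool) (S : Set (List Bool)) (u : List Bool) :
    ∃ N, Dep N (fun ω => M.out (orc B (cmb S ω zer)) u) := by
  obtain ⟨qb, hqb⟩ := out_congr' M
  refine ⟨bdc (qb.eval u.length), fun ω ω' h => hqb _ _ _ fun v hv => ?_⟩
  refine orc_dep B (fun s hs => ?_) hv
  unfold cmb
  rw [h s hs]

theorem dep_out' (M : Alg) (B : List Bool → Bool) (u : List Bool) :
    ∃ N, Dep N (fun ω => M.out (orc B ω) u) := by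
  obtain ⟨qb, hqb⟩ := out_congr' M
  exact ⟨bdc (qb.eval u.length), fun ω ω' h => hqb _ _ _ fun v hv => orc_dep B h hv⟩

end Pool.Agent.W2helper61.Mes
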